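import Mathlib

set_option autoImplicit false

/-!
# Truncated exponential p-functions are never in the class `I₀`

For every `α > 0` and every small `C²` perturbation `K` supported in `[2,3]`, the function
`exp (-α min(t,1)) (1 + K t)` is a standard p-function.  This is shown on the skeletons of mesh
`1/(2M)`: the renewal equation is rewritten as a perturbed defective renewal equation whose
solution satisfies a Harnack inequality, and the first-return probabilities are nonnegative.
The regenerative phenomenon in continuous time is obtained as a limit of the discrete ones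
(Riesz-Markov-Kakutani on the compact space of `0/1`-valued paths).
Applied to `K` and to `1/(1+K) - 1` this factors the truncated exponential.
-/

open Finset Filter Topology MeasureTheory
open scoped NNReal

namespace Pool.Agent.Results.MP_0f714a_pr.NotInI0

/-- `p` is a p-function: `p 0 = 1`, `p` has values in `[0,1]`, and there are a probability space
`(Ω, P)` and measurable events `E t` (`t ≥ 0`) such that for all `t 0 ≤ t 1 ≤ ... ≤ t n`,
`P (E (t 0) ∩ ... ∩ E (t n)) = p (t 0) * P (E (t 1 - t 0) ∩ ... ∩ E (t n - t 0))`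
(for `n = 0` the intersection on the right is the whole space). -/
def IsPFunction (p : ℝ≥0 → ℝ) : Prop :=
  p 0 = 1 ∧ (∀ t, 0 ≤ p t ∧ p t ≤ 1) ∧
  ∃ (Ω : Type) (_ : MeasurableSpace Ω) (P : Measure Ω) (E : ℝ≥0 → Set Ω),
    IsProbabilityMeasure P ∧ (∀ t, MeasurableSet (E t)) ∧
    ∀ (n : ℕ) (t : Fin (n + 1) → ℝ≥0), Monotone t →
      P.real (⋂ i, E (t i)) = p (t 0) * P.real (⋂ i : Fin n, E (t i.succ - t 0))

/-- The set of standard p-functions: p-functions with `p t → 1` as `t → 0`. -/
def IsStd (p : ℝ≥0 → ℝ) : Prop := IsPFunction p ∧ Tendsto p (𝓝 0) (𝓝 1)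

/-- `q` is a factor of `p`: `p = q r` pointwise with `q`, `r` standard p-functions. -/
def IsFactor (q p : ℝ≥0 → ℝ) : Prop := IsStd q ∧ ∃ r, IsStd r ∧ ∀ t, p t = q t * r t

/-- `p` is infinitely divisible: for every `n ≥ 1` it is the `n`-th power of a standard
p-function. -/
def InfDiv (p : ℝ≥0 → ℝ) : Prop := ∀ n : ℕ, 1 ≤ n → ∃ q, IsStd q ∧ ∀ t, q t ^ n = p t

/-- The class `I₀`: the standard p-functions all of whose factors are infinitely divisible. -/
def MemI0 (p : ℝ≥0 → ℝ) : Prop := IsStd p ∧ ∀ q, IsFactor q p → InfDiv q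

/-- The truncated exponential `t ↦ exp (- lam * min tau t)`. -/
noncomputable def truncExp (lam tau t : ℝ≥0) : ℝ := Real.exp (-((lam : ℝ) * (min tau t : ℝ≥0)))

/-! ## Discrete renewal sequences -/

section DiscretePart

open PowerSeries

/-- tail sequence: inverse of `(1 - X) * U`. -/
noncomputable def H (u : ℕ → ℝ) (n : ℕ) : ℝ :=
  coeff n (((1 - X) * PowerSeries.mk u : PowerSeries ℝ)⁻¹)

lemma key_inv (u : ℕ → ℝ) (hu : u 0 = 1) :
    ((1 - X) * PowerSeries.mk u : PowerSeries ℝ) * PowerSeries.mk (H u) = 1 := by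
  have h : PowerSeries.mk (H u) = ((1 - X) * PowerSeries.mk u : PowerSeries ℝ)⁻¹ := by
    ext n
    simp [H]
  rw [h]
  apply PowerSeries.mul_inv_cancel
  simp [hu]

lemma H_zero (u : ℕ → ℝ) (hu : u 0 = 1) : H u 0 = 1 := by
  have h := congrArg (coeff 0) (key_inv u hu)
  simpa [hu] using h

lemma coeff_one_sub_X_mul (φ : PowerSeries ℝ) (n : ℕ) :
    coeff (n + 1) ((1 - X) * φ) = coeff (n + 1) φ - coeff n φ := by
  rw [sub_mul, one_mul, map_sub, coeff_succ_X_mul]

lemma H_succ (u : ℕ → ℝ) (hu : u 0 = 1) (n : ℕ) :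
    H u (n + 1) = ∑ k ∈ range (n + 1), (u k - u (k + 1)) * H u (n - k) := by
  have h := congrArg (coeff (n + 1)) (key_inv u hu)
  rw [coeff_mul, Finset.Nat.sum_antidiagonal_eq_sum_range_succ
    (fun i j => coeff i ((1 - X) * PowerSeries.mk u : PowerSeries ℝ) * coeff j (PowerSeries.mk (H u))),
    Finset.sum_range_succ'] at h
  simp only [coeff_one_sub_X_mul, coeff_mk, Nat.add_sub_add_right, Nat.sub_zero] at h
  have h0 : coeff 0 ((1 - X) * PowerSeries.mk u : PowerSeries ℝ) = 1 := by simp [hu]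
  rw [h0, one_mul] at h
  have h1 : coeff (n + 1) (1 : PowerSeries ℝ) = 0 := by
    rw [coeff_one]; simp
  rw [h1] at h
  have h2 : ∑ k ∈ range (n + 1), (u k - u (k + 1)) * H u (n - k) =
      - ∑ k ∈ range (n + 1), (u (k + 1) - u k) * H u (n - k) := by
    rw [← Finset.sum_neg_distrib]
    apply Finset.sum_congr rfl
    intro k _
    ring
  rw [h2]
  linarith

/-- The renewal equation: `H k - H (k+1)` is the probability of a gap `k+1`. -/
lemma renewal (u : ℕ → ℝ) (hu : u 0 = 1) (n : ℕ) :
    u (n + 1) = ∑ k ∈ range (n + 1), (H u k - H u (k + 1)) * u (n - k) := by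
  have h' : ((1 - X) * PowerSeries.mk (H u) : PowerSeries ℝ) * PowerSeries.mk u = 1 := by
    linear_combination key_inv u hu
  have h := congrArg (coeff (n + 1)) h'
  rw [coeff_mul, Finset.Nat.sum_antidiagonal_eq_sum_range_succ
    (fun i j => coeff i ((1 - X) * PowerSeries.mk (H u) : PowerSeries ℝ) * coeff j (PowerSeries.mk u)),
    Finset.sum_range_succ'] at h
  simp only [coeff_one_sub_X_mul, coeff_mk, Nat.add_sub_add_right, Nat.sub_zero] at h
  have h0 : coeff 0 ((1 - X) * PowerSeries.mk (H u) : PowerSeries ℝ) = 1 := by simp [H_zero u hu]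
  rw [h0, one_mul] at h
  have h1 : coeff (n + 1) (1 : PowerSeries ℝ) = 0 := by
    rw [coeff_one]; simp
  rw [h1] at h
  have h2 : ∑ k ∈ range (n + 1), (H u k - H u (k + 1)) * u (n - k) =
      - ∑ k ∈ range (n + 1), (H u (k + 1) - H u k) * u (n - k) := by
    rw [← Finset.sum_neg_distrib]
    apply Finset.sum_congr rfl
    intro k _
    ring
  rw [h2]
  linarith

/-- The second order identity. -/
lemma H_second (u : ℕ → ℝ) (hu : u 0 = 1) (x : ℝ) (hu1 : u 1 = x) (n : ℕ) :
    H u (n + 1) - H u (n + 2) =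
      ∑ k ∈ range (n + 1), (u (k + 2) - (1 + x) * u (k + 1) + x * u k) * H u (n - k) := by
  have e1 := H_succ u hu (n + 1)
  have e2 := H_succ u hu n
  rw [Finset.sum_range_succ'] at e1
  simp only [Nat.sub_zero, Nat.add_sub_add_right, zero_add, hu, hu1] at e1
  have e3 : ∑ k ∈ range (n + 1), (u (k + 2) - (1 + x) * u (k + 1) + x * u k) * H u (n - k) =
      x * ∑ k ∈ range (n + 1), (u k - u (k + 1)) * H u (n - k)
        - ∑ k ∈ range (n + 1), (u (k + 1) - u (k + 1 + 1)) * H u (n - k) := by
    rw [Finset.mul_sum, ← Finset.sum_sub_distrib]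
    apply Finset.sum_congr rfl
    intro k _
    ring
  rw [e3, ← e2, e1]
  ring

/-- the perturbed sequence -/
noncomputable def useq (x : ℝ) (M : ℕ) (κ : ℕ → ℝ) (n : ℕ) : ℝ :=
  x ^ (min n (2 * M)) + x ^ (2 * M) * κ n

structure Hyp (x δ ρ : ℝ) (M : ℕ) (κ : ℕ → ℝ) : Prop where
  hx0 : 0 < x
  hx1 : x < 1
  hM : 1 ≤ M
  hρ : 2 * ρ = x ^ M - x ^ (2 * M)
  hκ1 : ∀ n, n ≤ 4 * M → κ n = 0
  hκ2 : ∀ n, 6 * M ≤ n → κ n = 0
  hδ0 : 0 ≤ δ
  hd1 : ∀ n, |κ (n + 1) - κ n| ≤ δ * (1 - x)
  hd2 : ∀ n, |κ (n + 2) - (1 + x) * κ (n + 1) + x * κ n| ≤ δ * (1 - x) ^ 2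
  hs1 : 3 * δ ≤ ρ ^ 6
  hs2 : 3 * δ ≤ x ^ (2 * M) * ρ ^ 5

section Main

variable {x δ ρ : ℝ} {M : ℕ} {κ : ℕ → ℝ}

lemma useq_zero (h : Hyp x δ ρ M κ) : useq x M κ 0 = 1 := by
  simp [useq, h.hκ1 0 (Nat.zero_le _)]

lemma useq_one (h : Hyp x δ ρ M κ) : useq x M κ 1 = x := by
  have hM := h.hM
  have h1 : min 1 (2 * M) = 1 := by omega
  simp [useq, h.hκ1 1 (by omega), h1]

lemma rho_pos (h : Hyp x δ ρ M κ) : 0 < ρ := by
  have hM := h.hM
  have : x ^ (2 * M) < x ^ M := pow_lt_pow_right_of_lt_one₀ h.hx0 h.hx1 (by omega)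
  have := h.hρ
  linarith

lemma rho_lt_one (h : Hyp x δ ρ M κ) : ρ < 1 := by
  have h1 : x ^ M ≤ 1 := pow_le_one₀ h.hx0.le h.hx1.le
  have h2 : 0 < x ^ (2 * M) := pow_pos h.hx0 _
  have := h.hρ
  linarith

lemma useq_second (_h : Hyp x δ ρ M κ) (k : ℕ) :
    useq x M κ (k + 2) - (1 + x) * useq x M κ (k + 1) + x * useq x M κ k =
      (if k + 1 = 2 * M then x ^ (2 * M) * (1 - x) else 0)
        + x ^ (2 * M) * (κ (k + 2) - (1 + x) * κ (k + 1) + x * κ k) := by
  have key : x ^ (min (k + 2) (2 * M)) - (1 + x) * x ^ (min (k + 1) (2 * M))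
      + x * x ^ (min k (2 * M)) = (if k + 1 = 2 * M then x ^ (2 * M) * (1 - x) else 0) := by
    rcases lt_trichotomy (k + 1) (2 * M) with h1 | h1 | h1
    · rw [if_neg (by omega), min_eq_left (by omega), min_eq_left (by omega), min_eq_left (by omega)]
      ring
    · rw [if_pos h1, ← h1, min_eq_right (by omega), min_eq_left (by omega), min_eq_left (by omega)]
      ring
    · rw [if_neg (by omega), min_eq_right (by omega), min_eq_right (by omega),
        min_eq_right (by omega)]
      ring
  simp only [useq]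
  linear_combination key

lemma D_zero_left (h : Hyp x δ ρ M κ) {k : ℕ} (hk : k + 2 ≤ 4 * M) :
    κ (k + 2) - (1 + x) * κ (k + 1) + x * κ k = 0 := by
  rw [h.hκ1 _ hk, h.hκ1 _ (by omega), h.hκ1 _ (by omega)]; ring

lemma D_zero_right (h : Hyp x δ ρ M κ) {k : ℕ} (hk : 6 * M ≤ k) :
    κ (k + 2) - (1 + x) * κ (k + 1) + x * κ k = 0 := by
  rw [h.hκ2 _ (by omega), h.hκ2 _ (by omega), h.hκ2 _ hk]; ring

lemma fform (h : Hyp x δ ρ M κ) (n : ℕ) :
    H (useq x M κ) (n + 1) - H (useq x M κ) (n + 2) =
      (if 2 * M ≤ n + 1 then x ^ (2 * M) * (1 - x) * H (useq x M κ) (n + 1 - 2 * M) else 0)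
      + x ^ (2 * M) * ∑ k ∈ range (n + 1),
        (κ (k + 2) - (1 + x) * κ (k + 1) + x * κ k) * H (useq x M κ) (n - k) := by
  have hM := h.hM
  rw [H_second _ (useq_zero h) x (useq_one h)]
  rw [Finset.mul_sum]
  have h1 : ∀ k ∈ range (n + 1), (useq x M κ (k + 2) - (1 + x) * useq x M κ (k + 1)
      + x * useq x M κ k) * H (useq x M κ) (n - k) =
      (if k = 2 * M - 1 then x ^ (2 * M) * (1 - x) * H (useq x M κ) (n - k) else 0) +
      x ^ (2 * M) * ((κ (k + 2) - (1 + x) * κ (k + 1) + x * κ k) * H (useq x M κ) (n - k)) := by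
    intro k _
    rw [useq_second h k]
    by_cases hk : k + 1 = 2 * M
    · rw [if_pos hk, if_pos (by omega)]; ring
    · rw [if_neg hk, if_neg (by omega)]; ring
  rw [Finset.sum_congr rfl h1, Finset.sum_add_distrib]
  congr 1
  rw [Finset.sum_ite_eq' (range (n + 1)) (2 * M - 1)]
  by_cases h2 : 2 * M ≤ n + 1
  · rw [if_pos h2, if_pos (by rw [Finset.mem_range]; omega)]
    congr 2
    omega
  · rw [if_neg h2, if_neg (by rw [Finset.mem_range]; omega)]

lemma H_one (h : Hyp x δ ρ M κ) : H (useq x M κ) 1 = 1 - x := by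
  rw [H_succ _ (useq_zero h) 0]
  simp [useq_zero h, useq_one h, H_zero _ (useq_zero h)]

lemma H_init (h : Hyp x δ ρ M κ) : ∀ j, 1 ≤ j → j ≤ 2 * M → H (useq x M κ) j = 1 - x := by
  intro j hj
  induction j, hj using Nat.le_induction with
  | base => intro _; exact H_one h
  | succ j hj ih =>
    intro hj2
    have h1 := ih (by omega)
    obtain ⟨n, rfl⟩ : ∃ n, j = n + 1 := ⟨j - 1, by omega⟩
    have h2 := fform h n
    rw [if_neg (by omega), Finset.sum_eq_zero, mul_zero, add_zero] at h2
    · rw [show n + 1 + 1 = n + 2 by ring]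
      linarith
    · intro k hk
      rw [Finset.mem_range] at hk
      rw [D_zero_left h (by omega), zero_mul]

/-- the induction statement -/
def St (u : ℕ → ℝ) (ρ : ℝ) (M n : ℕ) : Prop :=
  (∀ j, 1 ≤ j → j ≤ n → 0 < H u j) ∧ (∀ j, 1 ≤ j → j + 1 ≤ n → H u (j + 1) ≤ H u j) ∧
    (∀ j, 1 ≤ j → j + M ≤ n → ρ * H u j ≤ H u (j + M))

lemma St.anti {u : ℕ → ℝ} {n : ℕ} (h : St u ρ M n) {i j : ℕ} (hi : 1 ≤ i) (hij : i ≤ j)
    (hj : j ≤ n) : H u j ≤ H u i := by
  induction j, hij using Nat.le_induction with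
  | base => exact le_rfl
  | succ j hij ih => exact (h.2.1 j (by omega) hj).trans (ih (by omega))

lemma St.chain (h : Hyp x δ ρ M κ) {n : ℕ} (hS : St (useq x M κ) ρ M n) :
    ∀ r j i : ℕ, 1 ≤ i → i ≤ j → j ≤ n → j ≤ i + r * M →
      ρ ^ r * H (useq x M κ) i ≤ H (useq x M κ) j := by
  have hρ0 := rho_pos h
  have hρ1 := rho_lt_one h
  intro r
  induction r with
  | zero =>
    intro j i hi hij hj hr
    have : j = i := by omega
    subst this
    simp
  | succ r ih =>
    intro j i hi hij hj hr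
    have hHi := hS.1 i hi (by omega)
    have hpr : ρ ^ r ≤ 1 := pow_le_one₀ hρ0.le hρ1.le
    have hpr0 : 0 < ρ ^ r := pow_pos hρ0 r
    rcases le_or_gt j M with hjM | hjM
    · rw [H_init h j (by omega) (by omega), H_init h i hi (by omega)]
      have : ρ ^ (r + 1) ≤ 1 := pow_le_one₀ hρ0.le hρ1.le
      have hx := h.hx1
      nlinarith
    · have h1 := hS.2.2 (j - M) (by omega) (by omega)
      rw [Nat.sub_add_cancel hjM.le] at h1
      rcases le_or_gt i (j - M) with h2 | h2
      · have h3 := ih (j - M) i hi h2 (by omega) (by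
          have : (r + 1) * M = r * M + M := by ring
          omega)
        calc ρ ^ (r + 1) * H (useq x M κ) i = ρ * (ρ ^ r * H (useq x M κ) i) := by ring
          _ ≤ ρ * H (useq x M κ) (j - M) := by gcongr
          _ ≤ _ := h1
      · have h3 := hS.anti (i := j - M) (j := i) (by omega) h2.le (by omega)
        calc ρ ^ (r + 1) * H (useq x M κ) i = ρ ^ r * (ρ * H (useq x M κ) i) := by ring
          _ ≤ 1 * (ρ * H (useq x M κ) i) := by gcongr
          _ ≤ ρ * H (useq x M κ) (j - M) := by rw [one_mul]; gcongr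
          _ ≤ _ := h1

lemma two_M_mul_le (h : Hyp x δ ρ M κ) : (2 * M : ℝ) * (1 - x) * x ^ (2 * M) ≤ 1 := by
  have h1 : (1 - x) * ∑ k ∈ range (2 * M), x ^ k = 1 - x ^ (2 * M) := by
    have := mul_neg_geom_sum x (2 * M)
    exact this
  have h2 : (2 * M : ℝ) * x ^ (2 * M) ≤ ∑ k ∈ range (2 * M), x ^ k := by
    have : ∑ k ∈ range (2 * M), x ^ (2 * M) ≤ ∑ k ∈ range (2 * M), x ^ k := by
      apply Finset.sum_le_sum
      intro k hk
      rw [Finset.mem_range] at hk
      exact pow_le_pow_of_le_one h.hx0.le h.hx1.le hk.le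
    simpa using this
  have h3 : 0 < x ^ (2 * M) := pow_pos h.hx0 _
  have h4 := h.hx1
  nlinarith

lemma sum_bound (h : Hyp x δ ρ M κ) {c : ℕ → ℝ} {β C : ℝ} (m : ℕ) (hβ : 0 ≤ β)
    (hC : 0 ≤ C) (hc : ∀ k, |c k| ≤ β) (hc0 : ∀ k, c k ≠ 0 → 4 * M - 1 ≤ k ∧ k < 6 * M)
    (hpos : ∀ k, k < m → 0 ≤ H (useq x M κ) (m - k))
    (hC1 : ∀ k, 4 * M - 1 ≤ k → k < 6 * M → k < m → H (useq x M κ) (m - k) ≤ C)
    (hC2 : 4 * M - 1 ≤ m → m < 6 * M → 1 - x ≤ C) :
    x ^ (2 * M) * |∑ k ∈ range (m + 1), c k * H (useq x M κ) (m - k)| * (1 - x) ≤ 3 * (β * C) := by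
  have hx1 := h.hx1
  have hy : 0 < 1 - x := by linarith
  have hM := h.hM
  have hterm : ∀ k ∈ range (m + 1), |c k * H (useq x M κ) (m - k)| * (1 - x) ≤
      (if k ∈ Finset.Ico (4 * M - 1) (6 * M) then β * C * (1 - x) else 0)
        + (if k = m then β * C else 0) := by
    intro k hk
    rw [Finset.mem_range] at hk
    by_cases hck : c k = 0
    · rw [hck, zero_mul, abs_zero, zero_mul]
      have : 0 ≤ β * C := mul_nonneg hβ hC
      have : 0 ≤ β * C * (1 - x) := mul_nonneg this hy.le
      split_ifs <;> linarith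
    · obtain ⟨h1, h2⟩ := hc0 k hck
      rw [if_pos (by rw [Finset.mem_Ico]; exact ⟨h1, h2⟩)]
      rw [abs_mul]
      rcases Nat.lt_or_ge k m with h3 | h3
      · rw [if_neg (by omega), add_zero, abs_of_nonneg (hpos k h3)]
        have := hC1 k h1 h2 h3
        have h4 := hpos k h3
        have h5 := hc k
        gcongr
      · have hkm : k = m := by omega
        subst hkm
        rw [if_pos rfl, Nat.sub_self, H_zero _ (useq_zero h), abs_one, mul_one]
        have h5 := hc k
        have h6 := hC2 h1 h2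
        have h7 : |c k| * (1 - x) ≤ β * C := by gcongr
        have h8 : 0 ≤ β * C * (1 - x) := mul_nonneg (mul_nonneg hβ hC) hy.le
        linarith
  have hsum : |∑ k ∈ range (m + 1), c k * H (useq x M κ) (m - k)| * (1 - x) ≤
      (2 * M + 1) * (β * C * (1 - x)) + β * C := by
    calc |∑ k ∈ range (m + 1), c k * H (useq x M κ) (m - k)| * (1 - x)
        ≤ (∑ k ∈ range (m + 1), |c k * H (useq x M κ) (m - k)|) * (1 - x) := by
          gcongr
          exact Finset.abs_sum_le_sum_abs _ _
      _ = ∑ k ∈ range (m + 1), |c k * H (useq x M κ) (m - k)| * (1 - x) := by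
          rw [Finset.sum_mul]
      _ ≤ ∑ k ∈ range (m + 1), ((if k ∈ Finset.Ico (4 * M - 1) (6 * M)
            then β * C * (1 - x) else 0) + (if k = m then β * C else 0)) :=
          Finset.sum_le_sum hterm
      _ = ∑ k ∈ range (m + 1), (if k ∈ Finset.Ico (4 * M - 1) (6 * M)
            then β * C * (1 - x) else 0) + ∑ k ∈ range (m + 1), (if k = m then β * C else 0) :=
          Finset.sum_add_distrib
      _ ≤ (2 * M + 1) * (β * C * (1 - x)) + β * C := by
          apply add_le_add
          · rw [← Finset.sum_filter, Finset.sum_const, nsmul_eq_mul]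
            have h9 : 0 ≤ β * C * (1 - x) := mul_nonneg (mul_nonneg hβ hC) hy.le
            have h10 : ((Finset.filter (fun k => k ∈ Finset.Ico (4 * M - 1) (6 * M))
                (range (m + 1))).card : ℝ) ≤ 2 * M + 1 := by
              have h11 : (Finset.filter (fun k => k ∈ Finset.Ico (4 * M - 1) (6 * M))
                  (range (m + 1))) ⊆ Finset.Ico (4 * M - 1) (6 * M) := by
                intro k hk
                exact (Finset.mem_filter.mp hk).2
              have h12 := Finset.card_le_card h11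
              rw [Nat.card_Ico] at h12
              have h13 : (Finset.filter (fun k => k ∈ Finset.Ico (4 * M - 1) (6 * M))
                (range (m + 1))).card ≤ 2 * M + 1 := by omega
              exact_mod_cast h13
            gcongr
          · rw [Finset.sum_ite_eq']
            rw [if_pos (by rw [Finset.mem_range]; omega)]
  have h14 := two_M_mul_le h
  have h15 : 0 < x ^ (2 * M) := pow_pos h.hx0 _
  have h16 : x ^ (2 * M) ≤ 1 := pow_le_one₀ h.hx0.le hx1.le
  have h17 : 0 ≤ β * C := mul_nonneg hβ hC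
  calc x ^ (2 * M) * |∑ k ∈ range (m + 1), c k * H (useq x M κ) (m - k)| * (1 - x)
      = x ^ (2 * M) * (|∑ k ∈ range (m + 1), c k * H (useq x M κ) (m - k)| * (1 - x)) := by ring
    _ ≤ x ^ (2 * M) * ((2 * M + 1) * (β * C * (1 - x)) + β * C) := by gcongr
    _ = ((2 * M : ℝ) * (1 - x) * x ^ (2 * M) + x ^ (2 * M) * (1 - x) + x ^ (2 * M)) * (β * C) := by
        ring
    _ ≤ (1 + 1 * 1 + 1) * (β * C) := by
        gcongr
        have := h.hx0
        linarith
    _ = 3 * (β * C) := by ring

lemma step_anti (h : Hyp x δ ρ M κ) {n : ℕ} (hn : 2 * M ≤ n) (hS : St (useq x M κ) ρ M n) :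
    H (useq x M κ) (n + 1) ≤ H (useq x M κ) n := by
  have hM := h.hM
  have hx0 := h.hx0
  have hx1 := h.hx1
  have hρ0 := rho_pos h
  obtain ⟨m, rfl⟩ : ∃ m, n = m + 1 := ⟨n - 1, by omega⟩
  have h1 := fform h m
  rw [if_pos hn] at h1
  rcases Nat.eq_or_lt_of_le hn with h2 | h2
  · rw [Finset.sum_eq_zero, mul_zero, add_zero, ← h2, Nat.sub_self, H_zero _ (useq_zero h),
      mul_one] at h1
    · have : 0 < x ^ (2 * M) * (1 - x) := mul_pos (pow_pos hx0 _) (by linarith)
      rw [show m + 1 + 1 = m + 2 by ring, ← h2]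
      linarith
    · intro k hk
      rw [Finset.mem_range] at hk
      rw [D_zero_left h (by omega), zero_mul]
  · set J := m + 1 - 2 * M with hJ
    have hHJ := hS.1 J (by omega) (by omega)
    have hb := sum_bound h (c := fun k => κ (k + 2) - (1 + x) * κ (k + 1) + x * κ k)
      (β := δ * (1 - x) ^ 2) (C := H (useq x M κ) J / ρ ^ 5) m
      (mul_nonneg h.hδ0 (by positivity)) (by positivity) h.hd2
      (fun k hk => by
        by_contra hcon
        rw [not_and_or, not_le, not_lt] at hcon
        rcases hcon with hcon | hcon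
        · exact hk (D_zero_left h (by omega))
        · exact hk (D_zero_right h hcon))
      (fun k hk => (hS.1 (m - k) (by omega) (by omega)).le)
      (fun k hk1 hk2 hk3 => by
        rw [le_div_iff₀ (by positivity), mul_comm]
        exact St.chain h hS 5 J (m - k) (by omega) (by omega) (by omega) (by omega))
      (fun hk1 hk2 => by
        rw [le_div_iff₀ (by positivity), mul_comm, ← H_one h]
        exact St.chain h hS 5 J 1 (by omega) (by omega) (by omega) (by omega))
    set Sg := ∑ k ∈ range (m + 1),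
        (κ (k + 2) - (1 + x) * κ (k + 1) + x * κ k) * H (useq x M κ) (m - k) with hSg
    have hy : 0 < 1 - x := by linarith
    have h3 : x ^ (2 * M) * |Sg| ≤ x ^ (2 * M) * (1 - x) * H (useq x M κ) J := by
      have h4 : 3 * (δ * (1 - x) ^ 2 * (H (useq x M κ) J / ρ ^ 5)) ≤
          (x ^ (2 * M) * (1 - x) * H (useq x M κ) J) * (1 - x) := by
        have h5 := h.hs2
        calc 3 * (δ * (1 - x) ^ 2 * (H (useq x M κ) J / ρ ^ 5))
            = (3 * δ) * ((1 - x) ^ 2 * (H (useq x M κ) J / ρ ^ 5)) := by ring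
          _ ≤ (x ^ (2 * M) * ρ ^ 5) * ((1 - x) ^ 2 * (H (useq x M κ) J / ρ ^ 5)) := by gcongr
          _ = _ := by field_simp
      have h6 := hb.trans h4
      exact le_of_mul_le_mul_right h6 hy
    have h7 : -(x ^ (2 * M) * |Sg|) ≤ x ^ (2 * M) * Sg := by
      have := neg_abs_le Sg
      have h8 : 0 < x ^ (2 * M) := pow_pos hx0 _
      nlinarith
    rw [show m + 1 + 1 = m + 2 by ring]
    linarith

lemma useq_diff (_h : Hyp x δ ρ M κ) (k : ℕ) :
    useq x M κ k - useq x M κ (k + 1) =
      (if k < 2 * M then x ^ k * (1 - x) else 0) - x ^ (2 * M) * (κ (k + 1) - κ k) := by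
  have key : x ^ (min k (2 * M)) - x ^ (min (k + 1) (2 * M)) =
      (if k < 2 * M then x ^ k * (1 - x) else 0) := by
    split_ifs with h1
    · rw [min_eq_left (by omega), min_eq_left (by omega)]; ring
    · rw [min_eq_right (by omega), min_eq_right (by omega)]; ring
  simp only [useq]
  linear_combination key

lemma step_harnack (h : Hyp x δ ρ M κ) {n : ℕ} (hn : 2 * M ≤ n) (hS : St (useq x M κ) ρ M n) :
    ρ * H (useq x M κ) (n + 1 - M) ≤ H (useq x M κ) (n + 1) := by
  have hM := h.hM
  have hx0 := h.hx0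
  have hx1 := h.hx1
  have hy : 0 < 1 - x := by linarith
  have hρ0 := rho_pos h
  have h1 := H_succ _ (useq_zero h) n
  have h2 : ∀ k ∈ range (n + 1), (useq x M κ k - useq x M κ (k + 1)) * H (useq x M κ) (n - k) =
      (if k < 2 * M then x ^ k * (1 - x) * H (useq x M κ) (n - k) else 0)
        - x ^ (2 * M) * ((κ (k + 1) - κ k) * H (useq x M κ) (n - k)) := by
    intro k _
    rw [useq_diff h]
    split_ifs <;> ring
  rw [Finset.sum_congr rfl h2, Finset.sum_sub_distrib, ← Finset.mul_sum] at h1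
  have hHJ := hS.1 (n - M) (by omega) (by omega)
  have hb := sum_bound h (c := fun k => κ (k + 1) - κ k)
      (β := δ * (1 - x)) (C := H (useq x M κ) (n - M) / ρ ^ 5) n
      (mul_nonneg h.hδ0 hy.le) (by positivity) h.hd1
      (fun k hk => by
        by_contra hcon
        rw [not_and_or, not_le, not_lt] at hcon
        rcases hcon with hcon | hcon
        · exact hk (by rw [h.hκ1 _ (by omega), h.hκ1 _ (by omega), sub_zero])
        · exact hk (by rw [h.hκ2 _ (by omega), h.hκ2 _ (by omega), sub_zero]))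
      (fun k hk => (hS.1 (n - k) (by omega) (by omega)).le)
      (fun k hk1 hk2 hk3 => by
        rw [le_div_iff₀ (by positivity), mul_comm]
        exact St.chain h hS 5 (n - M) (n - k) (by omega) (by omega) (by omega) (by omega))
      (fun hk1 hk2 => by
        rw [le_div_iff₀ (by positivity), mul_comm, ← H_one h]
        exact St.chain h hS 5 (n - M) 1 (by omega) (by omega) (by omega) (by omega))
  set Sg := ∑ k ∈ range (n + 1), (κ (k + 1) - κ k) * H (useq x M κ) (n - k) with hSg
  have h3 : x ^ (2 * M) * |Sg| ≤ ρ * H (useq x M κ) (n - M) := by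
    have h4 : 3 * (δ * (1 - x) * (H (useq x M κ) (n - M) / ρ ^ 5)) ≤
        (ρ * H (useq x M κ) (n - M)) * (1 - x) := by
      have h5 := h.hs1
      calc 3 * (δ * (1 - x) * (H (useq x M κ) (n - M) / ρ ^ 5))
          = (3 * δ) * ((1 - x) * (H (useq x M κ) (n - M) / ρ ^ 5)) := by ring
        _ ≤ (ρ ^ 6) * ((1 - x) * (H (useq x M κ) (n - M) / ρ ^ 5)) := by gcongr
        _ = _ := by field_simp
    exact le_of_mul_le_mul_right (hb.trans h4) hy
  have h6 : (x ^ M - x ^ (2 * M)) * H (useq x M κ) (n - M) ≤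
      ∑ k ∈ range (n + 1), (if k < 2 * M then x ^ k * (1 - x) * H (useq x M κ) (n - k) else 0) := by
    have h7 : ∑ k ∈ Finset.Ico M (2 * M), x ^ k * (1 - x) = x ^ M - x ^ (2 * M) := by
      have e1 : ∀ k, x ^ k * (1 - x) = x ^ k - x ^ (k + 1) := by intro k; ring
      simp_rw [e1]
      rw [Finset.sum_Ico_eq_sub _ (by omega), Finset.sum_range_sub', Finset.sum_range_sub']
      ring
    rw [← h7, Finset.sum_mul, ← Finset.sum_filter]
    calc ∑ k ∈ Finset.Ico M (2 * M), x ^ k * (1 - x) * H (useq x M κ) (n - M)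
        ≤ ∑ k ∈ Finset.Ico M (2 * M), x ^ k * (1 - x) * H (useq x M κ) (n - k) := by
          apply Finset.sum_le_sum
          intro k hk
          rw [Finset.mem_Ico] at hk
          have := hS.anti (i := n - k) (j := n - M) (by omega) (by omega) (by omega)
          gcongr
      _ ≤ _ := by
          apply Finset.sum_le_sum_of_subset_of_nonneg
          · intro k hk
            rw [Finset.mem_Ico] at hk
            rw [Finset.mem_filter, Finset.mem_range]
            omega
          · intro k hk _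
            rw [Finset.mem_filter, Finset.mem_range] at hk
            have := hS.1 (n - k) (by omega) (by omega)
            positivity
  have h8 : x ^ (2 * M) * Sg ≤ x ^ (2 * M) * |Sg| := by
    have := le_abs_self Sg
    gcongr
  have h9 := h.hρ
  have h10 : H (useq x M κ) (n + 1 - M) ≤ H (useq x M κ) (n - M) :=
    hS.anti (by omega) (by omega) (by omega)
  calc ρ * H (useq x M κ) (n + 1 - M) ≤ ρ * H (useq x M κ) (n - M) := by gcongr
    _ = (x ^ M - x ^ (2 * M)) * H (useq x M κ) (n - M) - ρ * H (useq x M κ) (n - M) := by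
        rw [← h9]; ring
    _ ≤ _ := by rw [h1]; linarith

lemma St_all (h : Hyp x δ ρ M κ) : ∀ n, 2 * M ≤ n → St (useq x M κ) ρ M n := by
  have hM := h.hM
  have hx1 := h.hx1
  have hρ0 := rho_pos h
  have hρ1 := rho_lt_one h
  intro n hn
  induction n, hn using Nat.le_induction with
  | base =>
    refine ⟨fun j h1 h2 => ?_, fun j h1 h2 => ?_, fun j h1 h2 => ?_⟩
    · rw [H_init h j h1 h2]; linarith
    · rw [H_init h j h1 (by omega), H_init h (j + 1) (by omega) h2]
    · rw [H_init h j h1 (by omega), H_init h (j + M) (by omega) h2]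
      nlinarith
  | succ n hn ih =>
    have h1 := step_anti h hn ih
    have h2 := step_harnack h hn ih
    have h3 := ih.1 (n + 1 - M) (by omega) (by omega)
    refine ⟨fun j hj1 hj2 => ?_, fun j hj1 hj2 => ?_, fun j hj1 hj2 => ?_⟩
    · rcases Nat.lt_or_ge n j with hj | hj
      · have : j = n + 1 := by omega
        subst this
        exact lt_of_lt_of_le (mul_pos hρ0 h3) h2
      · exact ih.1 j hj1 hj
    · rcases Nat.lt_or_ge n (j + 1) with hj | hj
      · have : j = n := by omega
        subst this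
        exact h1
      · exact ih.2.1 j hj1 hj
    · rcases Nat.lt_or_ge n (j + M) with hj | hj
      · have : j + M = n + 1 := by omega
        rw [this]
        have h5 : j = n + 1 - M := by omega
        rw [h5]
        exact h2
      · exact ih.2.2 j hj1 hj

lemma H_pos (h : Hyp x δ ρ M κ) (n : ℕ) : 0 < H (useq x M κ) n := by
  rcases Nat.eq_zero_or_pos n with h0 | h0
  · subst h0; rw [H_zero _ (useq_zero h)]; norm_num
  · exact (St_all h (2 * M + n) (by omega)).1 n h0 (by omega)

lemma H_anti (h : Hyp x δ ρ M κ) (n : ℕ) : H (useq x M κ) (n + 1) ≤ H (useq x M κ) n := by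
  rcases Nat.eq_zero_or_pos n with h0 | h0
  · subst h0; rw [H_zero _ (useq_zero h), H_one h]; linarith [h.hx0]
  · exact (St_all h (2 * M + n + 1) (by omega)).2.1 n h0 (by omega)

end Main

/-- A real sequence is a renewal sequence if it satisfies the renewal equation for some gap
distribution `f` (`f k` is the probability of a gap `k + 1`). -/
def IsRenewal (u : ℕ → ℝ) : Prop :=
  u 0 = 1 ∧ ∃ f : ℕ → ℝ, (∀ k, 0 ≤ f k) ∧ (∀ n, ∑ k ∈ range n, f k ≤ 1) ∧
    ∀ n, u (n + 1) = ∑ k ∈ range (n + 1), f k * u (n - k)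

theorem isRenewal_of_hyp {x δ ρ : ℝ} {M : ℕ} {κ : ℕ → ℝ} (h : Hyp x δ ρ M κ) :
    IsRenewal (useq x M κ) := by
  refine ⟨useq_zero h, fun k => H (useq x M κ) k - H (useq x M κ) (k + 1),
    fun k => by linarith [H_anti h k], fun n => ?_, fun n => renewal _ (useq_zero h) n⟩
  rw [Finset.sum_range_sub', H_zero _ (useq_zero h)]
  linarith [H_pos h n]

end DiscretePart

/-! ## The renewal process up to a finite horizon -/

section ProcessPart

/-- the pattern with a renewal at time `0` only -/
def pat0 : ℕ → Bool := fun n => decide (n = 0)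

/-- renewal at `0`, then the next renewal at `k + 1`, from which the pattern `w` is followed -/
def shift (k : ℕ) (w : ℕ → Bool) : ℕ → Bool :=
  fun n => if n = 0 then true else if n ≤ k then false else w (n - (k + 1))

/-- expectation functional of the renewal process observed up to time `T` -/
noncomputable def Phi (f : ℕ → ℝ) (T : ℕ) (F : (ℕ → Bool) → ℝ) : ℝ :=
  (∑ k : Fin T, f k * Phi f (T - (k + 1)) (fun w => F (shift k w)))
    + (1 - ∑ k : Fin T, f k) * F pat0
termination_by T
decreasing_by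
  have := k.isLt
  omega

lemma Phi_eq (f : ℕ → ℝ) (T : ℕ) (F : (ℕ → Bool) → ℝ) :
    Phi f T F = (∑ k ∈ range T, f k * Phi f (T - (k + 1)) (fun w => F (shift k w)))
      + (1 - ∑ k ∈ range T, f k) * F pat0 := by
  rw [Phi, Finset.sum_range, Finset.sum_range]

lemma Phi_congr (f : ℕ → ℝ) (T : ℕ) (F G : (ℕ → Bool) → ℝ)
    (h : ∀ w, w 0 = true → F w = G w) : Phi f T F = Phi f T G := by
  rw [Phi_eq, Phi_eq]
  congr 1
  · apply Finset.sum_congr rfl
    intro k _
    congr 2
    funext w
    exact h _ (by simp [shift])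
  · rw [h pat0 (by simp [pat0])]

lemma Phi_add (f : ℕ → ℝ) (T : ℕ) : ∀ (F G : (ℕ → Bool) → ℝ),
    Phi f T (fun w => F w + G w) = Phi f T F + Phi f T G := by
  induction T using Nat.strong_induction_on with
  | _ T ih =>
    intro F G
    rw [Phi_eq, Phi_eq f T F, Phi_eq f T G]
    have : ∀ k ∈ range T, f k * Phi f (T - (k + 1)) (fun w => F (shift k w) + G (shift k w)) =
        f k * Phi f (T - (k + 1)) (fun w => F (shift k w)) +
        f k * Phi f (T - (k + 1)) (fun w => G (shift k w)) := by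
      intro k hk
      rw [Finset.mem_range] at hk
      rw [ih _ (by omega)]
      ring
    rw [Finset.sum_congr rfl this, Finset.sum_add_distrib]
    ring

lemma Phi_smul (f : ℕ → ℝ) (T : ℕ) (c : ℝ) : ∀ (F : (ℕ → Bool) → ℝ),
    Phi f T (fun w => c * F w) = c * Phi f T F := by
  induction T using Nat.strong_induction_on with
  | _ T ih =>
    intro F
    rw [Phi_eq, Phi_eq f T F]
    have : ∀ k ∈ range T, f k * Phi f (T - (k + 1)) (fun w => c * F (shift k w)) =
        c * (f k * Phi f (T - (k + 1)) (fun w => F (shift k w))) := by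
      intro k hk
      rw [Finset.mem_range] at hk
      rw [ih _ (by omega)]
      ring
    rw [Finset.sum_congr rfl this, ← Finset.mul_sum]
    ring

lemma Phi_const (f : ℕ → ℝ) (T : ℕ) (c : ℝ) : Phi f T (fun _ => c) = c := by
  induction T using Nat.strong_induction_on with
  | _ T ih =>
    rw [Phi_eq]
    have : ∀ k ∈ range T, f k * Phi f (T - (k + 1)) (fun _ => c) = f k * c := by
      intro k hk
      rw [Finset.mem_range] at hk
      rw [ih _ (by omega)]
    rw [Finset.sum_congr rfl this, ← Finset.sum_mul]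
    ring

lemma Phi_nonneg (f : ℕ → ℝ) (hf : ∀ k, 0 ≤ f k) (hf1 : ∀ n, ∑ k ∈ range n, f k ≤ 1) (T : ℕ) :
    ∀ (F : (ℕ → Bool) → ℝ), (∀ w, 0 ≤ F w) → 0 ≤ Phi f T F := by
  induction T using Nat.strong_induction_on with
  | _ T ih =>
    intro F hF
    rw [Phi_eq]
    apply add_nonneg
    · apply Finset.sum_nonneg
      intro k hk
      rw [Finset.mem_range] at hk
      exact mul_nonneg (hf k) (ih _ (by omega) _ (fun w => hF _))
    · exact mul_nonneg (by linarith [hf1 T]) (hF _)

lemma Phi_mono (f : ℕ → ℝ) (hf : ∀ k, 0 ≤ f k) (hf1 : ∀ n, ∑ k ∈ range n, f k ≤ 1) (T : ℕ)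
    (F G : (ℕ → Bool) → ℝ) (h : ∀ w, F w ≤ G w) : Phi f T F ≤ Phi f T G := by
  have h1 := Phi_nonneg f hf hf1 T (fun w => G w + (-1) * F w) (fun w => by linarith [h w])
  rw [Phi_add f T G (fun w => (-1) * F w), Phi_smul] at h1
  linarith

/-- indicator of the set of patterns that are true at all times of `l` -/
noncomputable def chi {T : Type*} (l : List T) (w : T → Bool) : ℝ :=
  if ∀ b ∈ l, w b = true then 1 else 0

/-- product of `u` over the successive gaps of a list of times -/
def Ud (u : ℕ → ℝ) : List ℕ → ℝ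
  | [] => 1
  | b :: l => u b * Ud u (l.map (· - b))
termination_by l => l.length

lemma Ud_nil (u : ℕ → ℝ) : Ud u [] = 1 := by rw [Ud]
lemma Ud_cons (u : ℕ → ℝ) (b : ℕ) (l : List ℕ) : Ud u (b :: l) = u b * Ud u (l.map (· - b)) := by
  rw [Ud]

theorem Phi_chi (u f : ℕ → ℝ) (hu : u 0 = 1)
    (hr : ∀ n, u (n + 1) = ∑ k ∈ range (n + 1), f k * u (n - k)) (T : ℕ) :
    ∀ l : List ℕ, l.Pairwise (· ≤ ·) → (∀ b ∈ l, b ≤ T) → Phi f T (chi l) = Ud u l := by
  induction T using Nat.strong_induction_on with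
  | _ T ih =>
    intro l
    induction l with
    | nil =>
      intro _ _
      rw [Ud_nil]
      have : chi ([] : List ℕ) = fun _ => (1 : ℝ) := by
        funext w; simp [chi]
      rw [this, Phi_const]
    | cons b l ihl =>
      intro hl hT
      rcases Nat.eq_zero_or_pos b with hb | hb
      · subst hb
        rw [Ud_cons, hu, one_mul]
        have h1 : l.map (· - 0) = l := by simp
        rw [h1, ← ihl (List.Pairwise.of_cons hl) (fun c hc => hT c (List.mem_cons_of_mem _ hc))]
        apply Phi_congr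
        intro w hw
        simp [chi, hw]
      · have hbT : b ≤ T := hT b (List.mem_cons_self)
        have hge : ∀ c ∈ b :: l, b ≤ c := by
          intro c hc
          rcases List.mem_cons.mp hc with rfl | hc
          · exact le_rfl
          · exact (List.pairwise_cons.mp hl).1 c hc
        have hpat : chi (b :: l) pat0 = 0 := by
          unfold chi
          rw [if_neg]
          intro h
          have := h b List.mem_cons_self
          simp [pat0] at this
          omega
        have hterm : ∀ k ∈ range T, f k * Phi f (T - (k + 1)) (fun w => chi (b :: l) (shift k w)) =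
            (if k < b then f k * u (b - 1 - k) * Ud u (l.map (· - b)) else 0) := by
          intro k hk
          rw [Finset.mem_range] at hk
          split_ifs with hkb
          · have h2 : (fun w => chi (b :: l) (shift k w)) = chi ((b :: l).map (· - (k + 1))) := by
              funext w
              have h3 : (∀ c ∈ b :: l, shift k w c = true) ↔
                  (∀ c ∈ (b :: l).map (· - (k + 1)), w c = true) := by
                constructor
                · intro h c hc
                  obtain ⟨d, hd, rfl⟩ := List.mem_map.mp hc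
                  have h4 := h d hd
                  have h5 := hge d hd
                  simpa [shift, show d ≠ 0 by omega, show ¬ d ≤ k by omega] using h4
                · intro h d hd
                  have h5 := hge d hd
                  have h4 := h (d - (k + 1)) (List.mem_map.mpr ⟨d, hd, rfl⟩)
                  simpa [shift, show d ≠ 0 by omega, show ¬ d ≤ k by omega] using h4
              unfold chi
              by_cases h4 : ∀ c ∈ b :: l, shift k w c = true
              · rw [if_pos h4, if_pos (h3.mp h4)]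
              · rw [if_neg h4, if_neg (fun h5 => h4 (h3.mpr h5))]
            rw [h2, ih (T - (k + 1)) (by omega)]
            · rw [List.map_cons, Ud_cons, List.map_map]
              have h6 : ((fun x => x - (b - (k + 1))) ∘ fun x => x - (k + 1)) = (fun x => x - b) := by
                funext x
                simp only [Function.comp_apply]
                omega
              rw [h6, show b - (k + 1) = b - 1 - k by omega]
              ring
            · apply List.Pairwise.map _ _ hl
              intro c d hcd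
              exact Nat.sub_le_sub_right hcd _
            · intro c hc
              obtain ⟨d, hd, rfl⟩ := List.mem_map.mp hc
              have := hT d hd
              omega
          · have h2 : (fun w => chi (b :: l) (shift k w)) = fun _ => (0 : ℝ) := by
              funext w
              unfold chi
              rw [if_neg]
              intro h
              have := h b List.mem_cons_self
              simp [shift, show b ≠ 0 by omega, show b ≤ k by omega] at this
            rw [h2, Phi_const, mul_zero]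
        rw [Phi_eq, hpat, mul_zero, add_zero, Finset.sum_congr rfl hterm, Ud_cons,
          ← Finset.sum_filter]
        have h7 : (range T).filter (fun k => k < b) = range b := by
          ext k
          simp only [Finset.mem_filter, Finset.mem_range]
          omega
        rw [h7, ← Finset.sum_mul]
        congr 1
        obtain ⟨b', rfl⟩ : ∃ b', b = b' + 1 := ⟨b - 1, by omega⟩
        rw [hr b']
        rfl

end ProcessPart

/-! ## Passage to continuous time -/

section LimitPart

open scoped CompactlySupported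


/-- the space of all `0/1`-valued paths on `[0,∞)` -/
def Path : Type := ℝ≥0 → Bool

instance : TopologicalSpace Path := (Pi.topologicalSpace : TopologicalSpace (ℝ≥0 → Bool))
instance : T2Space Path := (inferInstance : T2Space (ℝ≥0 → Bool))
instance : CompactSpace Path := (inferInstance : CompactSpace (ℝ≥0 → Bool))
instance : MeasurableSpace Path := borel Path
instance : BorelSpace Path := ⟨rfl⟩

/-- embed a discrete pattern with mesh `1/N` -/
noncomputable def emb (N : ℕ) (w : ℕ → Bool) : Path := fun t => w ⌊t * N⌋₊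

section

variable (N : ℕ → ℕ) (f : ℕ → ℕ → ℝ)

/-- the functional at stage `j` -/
noncomputable def Lam (F : C_c(Path, ℝ)) (j : ℕ) : ℝ :=
  Phi (f j) (j * N j) (fun w => F (emb (N j) w))

variable (hf : ∀ j k, 0 ≤ f j k) (hf1 : ∀ j n, ∑ k ∈ range n, f j k ≤ 1)

include hf hf1

lemma exists_lim (F : C_c(Path, ℝ)) :
    ∃ c, Tendsto (Lam N f F) (hyperfilter ℕ : Filter ℕ) (𝓝 c) := by
  obtain ⟨B, hB⟩ := isCompact_univ.exists_bound_of_continuousOn
    (f := F) F.continuous.continuousOn
  have hmem : ∀ j, Lam N f F j ∈ Set.Icc (-B) B := by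
    intro j
    have hb : ∀ w, -B ≤ F (emb (N j) w) ∧ F (emb (N j) w) ≤ B := by
      intro w
      have := hB (emb (N j) w) (Set.mem_univ _)
      rw [Real.norm_eq_abs, abs_le] at this
      exact this
    constructor
    · rw [← Phi_const (f j) (j * N j) (-B)]
      exact Phi_mono _ (hf j) (hf1 j) _ _ _ (fun w => (hb w).1)
    · rw [← Phi_const (f j) (j * N j) B]
      exact Phi_mono _ (hf j) (hf1 j) _ _ _ (fun w => (hb w).2)
  obtain ⟨c, -, hc⟩ := isCompact_Icc.ultrafilter_le_nhds' ((hyperfilter ℕ).map (Lam N f F))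
    (Ultrafilter.mem_map.mpr (Filter.univ_mem' hmem))
  exact ⟨c, hc⟩

/-- the limit functional -/
noncomputable def L : C_c(Path, ℝ) →ₚ[ℝ] ℝ where
  toFun F := Classical.choose (exists_lim N f hf hf1 F)
  map_add' F G := by
    apply tendsto_nhds_unique (Classical.choose_spec (exists_lim N f hf hf1 (F + G)))
    have h := (Classical.choose_spec (exists_lim N f hf hf1 F)).add
      (Classical.choose_spec (exists_lim N f hf hf1 G))
    refine h.congr (fun j => ?_)
    exact (Phi_add (f j) (j * N j) _ _).symm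
  map_smul' c F := by
    apply tendsto_nhds_unique (Classical.choose_spec (exists_lim N f hf hf1 (c • F)))
    have h := (Classical.choose_spec (exists_lim N f hf hf1 F)).const_mul c
    refine h.congr (fun j => ?_)
    exact (Phi_smul (f j) (j * N j) c _).symm
  monotone' F G hFG := by
    apply le_of_tendsto_of_tendsto' (Classical.choose_spec (exists_lim N f hf hf1 F))
      (Classical.choose_spec (exists_lim N f hf hf1 G))
    intro j
    exact Phi_mono _ (hf j) (hf1 j) _ _ _ (fun w => hFG _)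

lemma L_spec (F : C_c(Path, ℝ)) {c : ℝ}
    (h : Tendsto (Lam N f F) (hyperfilter ℕ : Filter ℕ) (𝓝 c)) : L N f hf hf1 F = c :=
  tendsto_nhds_unique (Classical.choose_spec (exists_lim N f hf hf1 F)) h

end

lemma continuous_chi (l : List ℝ≥0) : Continuous (fun w : Path => chi l w) := by
  induction l with
  | nil =>
    have : (fun w : Path => chi ([] : List ℝ≥0) w) = fun _ => 1 := by
      funext w; simp [chi]
    rw [this]; exact continuous_const
  | cons t l ih =>
    have : (fun w : Path => chi (t :: l) w) =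
        fun w : Path => (if w t = true then (1 : ℝ) else 0) * chi l w := by
      funext w
      unfold chi
      by_cases h1 : w t = true
      · rw [if_pos h1, one_mul]
        by_cases h2 : ∀ b ∈ l, w b = true
        · rw [if_pos h2, if_pos]
          intro b hb
          rcases List.mem_cons.mp hb with rfl | hb
          · exact h1
          · exact h2 b hb
        · rw [if_neg h2, if_neg]
          intro h3
          exact h2 (fun b hb => h3 b (List.mem_cons_of_mem _ hb))
      · rw [if_neg h1, zero_mul, if_neg]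
        intro h3
        exact h1 (h3 t List.mem_cons_self)
    rw [this]
    apply Continuous.mul _ ih
    have h1 : Continuous (fun b : Bool => (if b = true then (1 : ℝ) else 0)) :=
      continuous_of_discreteTopology
    have h2 : Continuous (fun w : Path => w t) := continuous_apply t
    exact h1.comp h2

/-- the indicator of a cylinder as a compactly supported continuous function -/
noncomputable def chiC (l : List ℝ≥0) : C_c(Path, ℝ) :=
  ⟨⟨fun w => chi l w, continuous_chi l⟩, HasCompactSupport.of_compactSpace _⟩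

lemma chiC_apply (l : List ℝ≥0) (w : Path) : chiC l w = chi l w := rfl

/-- product of `p` over the gaps of a list of times -/
noncomputable def V (p : ℝ≥0 → ℝ) : List ℝ≥0 → ℝ
  | [] => 1
  | t :: l => p t * V p (l.map (· - t))
termination_by l => l.length

lemma V_nil (p : ℝ≥0 → ℝ) : V p [] = 1 := by rw [V]
lemma V_cons (p : ℝ≥0 → ℝ) (b : ℝ≥0) (l : List ℝ≥0) :
    V p (b :: l) = p b * V p (l.map (· - b)) := by
  rw [V]

lemma tendsto_Ud (p : ℝ≥0 → ℝ) (hp : Continuous p) (N : ℕ → ℕ) (U : Filter ℕ) :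
    ∀ (n : ℕ) (B : List (ℕ → ℕ)) (l : List ℝ≥0), B.length = n →
      List.Forall₂ (fun b t => Tendsto (fun j => ((b j : ℕ) : ℝ≥0) / (N j : ℝ≥0)) U (𝓝 t)) B l →
      Tendsto (fun j => Ud (fun n => p ((n : ℝ≥0) / (N j : ℝ≥0))) (B.map (fun b => b j))) U
        (𝓝 (V p l)) := by
  intro n
  induction n with
  | zero =>
    intro B l hB h
    have : B = [] := List.length_eq_zero_iff.mp hB
    subst this
    cases h
    simp only [List.map_nil, Ud_nil, V_nil]
    exact tendsto_const_nhds
  | succ n ih =>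
    intro B l hB h
    cases h with
    | nil => simp at hB
    | @cons b t B' l' hbt h' =>
      have hlen : B'.length = n := by simpa using hB
      simp only [List.map_cons, Ud_cons, V_cons, List.map_map]
      apply Tendsto.mul
      · exact (hp.tendsto t).comp hbt
      · have h2 := ih (B'.map (fun c j => c j - b j)) (l'.map (· - t)) (by simpa using hlen) (by
          rw [List.forall₂_map_left_iff, List.forall₂_map_right_iff]
          refine h'.imp ?_
          intro c s hc
          have h3 : (fun j => ((c j - b j : ℕ) : ℝ≥0) / (N j : ℝ≥0)) =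
              fun j => ((c j : ℕ) : ℝ≥0) / (N j : ℝ≥0) - ((b j : ℕ) : ℝ≥0) / (N j : ℝ≥0) := by
            funext j
            rw [Nat.cast_tsub, tsub_div]
          rw [h3]
          exact hc.sub hbt)
        simp only [List.map_map] at h2
        exact h2

lemma tendsto_floor (N : ℕ → ℕ) (hN : Tendsto N atTop atTop) (t : ℝ≥0) :
    Tendsto (fun j => ((⌊t * (N j : ℝ≥0)⌋₊ : ℕ) : ℝ≥0) / (N j : ℝ≥0)) atTop (𝓝 t) := by
  have h1 := tendsto_nat_floor_mul_div_atTop (R := ℝ) (a := (t : ℝ)) t.2
  have h2 : Tendsto (fun j => ((N j : ℕ) : ℝ)) atTop atTop :=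
    tendsto_natCast_atTop_atTop.comp hN
  have h3 := h1.comp h2
  rw [← NNReal.tendsto_coe]
  refine h3.congr (fun j => ?_)
  simp only [Function.comp_apply, NNReal.coe_div, NNReal.coe_natCast]
  congr 2

/-- existence of the regenerative phenomenon from renewal skeletons -/
theorem exists_process (p : ℝ≥0 → ℝ) (hp : Continuous p) (hp0 : p 0 = 1)
    (N : ℕ → ℕ) (hN : Tendsto N atTop atTop) (f : ℕ → ℕ → ℝ)
    (hf : ∀ j k, 0 ≤ f j k) (hf1 : ∀ j n, ∑ k ∈ range n, f j k ≤ 1)
    (hr : ∀ j n, p (((n + 1 : ℕ) : ℝ≥0) / (N j : ℝ≥0)) =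
      ∑ k ∈ range (n + 1), f j k * p (((n - k : ℕ) : ℝ≥0) / (N j : ℝ≥0))) :
    ∃ P : Measure Path, IsProbabilityMeasure P ∧
      ∀ l : List ℝ≥0, l.Pairwise (· ≤ ·) → P.real {w : Path | ∀ t ∈ l, w t = true} = V p l := by
  set P := RealRMK.rieszMeasure (L N f hf hf1) with hP
  have hfin : IsFiniteMeasure P := inferInstance
  have hLchi : ∀ l : List ℝ≥0, l.Pairwise (· ≤ ·) → L N f hf hf1 (chiC l) = V p l := by
    intro l hl
    apply L_spec
    have h1 := tendsto_Ud p hp N (hyperfilter ℕ : Filter ℕ) l.length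
      (l.map (fun t j => ⌊t * (N j : ℝ≥0)⌋₊)) l (by simp) (by
        rw [List.forall₂_map_left_iff]
        rw [List.forall₂_same]
        intro t _
        exact (tendsto_floor N hN t).mono_left
          (by rw [← Nat.cofinite_eq_atTop]; exact hyperfilter_le_cofinite))
    refine h1.congr' ?_
    obtain ⟨T, hT⟩ : ∃ T : ℕ, ∀ t ∈ l, t ≤ T := by
      clear hl h1
      induction l with
      | nil => exact ⟨0, by simp⟩
      | cons a l ih =>
        obtain ⟨T, hT⟩ := ih
        obtain ⟨S, hS⟩ := exists_nat_ge a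
        refine ⟨max S T, ?_⟩
        intro t ht
        rcases List.mem_cons.mp ht with rfl | ht
        · exact hS.trans (by exact_mod_cast le_max_left _ _)
        · exact (hT t ht).trans (by exact_mod_cast le_max_right _ _)
    have hev : ∀ᶠ j in (hyperfilter ℕ : Filter ℕ), T ≤ j := by
      have : ∀ᶠ j in atTop, T ≤ j := eventually_ge_atTop T
      rw [← Nat.cofinite_eq_atTop] at this
      exact hyperfilter_le_cofinite this
    filter_upwards [hev] with j hj
    unfold Lam
    have h2 : (fun w => (chiC l) (emb (N j) w)) =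
        chi (l.map (fun t => ⌊t * (N j : ℝ≥0)⌋₊)) := by
      funext w
      rw [chiC_apply]
      unfold chi emb
      congr 1
      simp
    rw [h2, Phi_chi (fun n => p ((n : ℝ≥0) / (N j : ℝ≥0))) (f j) (by simpa using hp0)
      (fun n => hr j n)]
    · rw [List.map_map]
      rfl
    · apply List.Pairwise.map _ _ hl
      intro a b hab
      apply Nat.floor_mono
      gcongr
    · intro b hb
      obtain ⟨t, ht, rfl⟩ := List.mem_map.mp hb
      apply Nat.floor_le_of_le
      push_cast
      have := hT t ht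
      gcongr
      exact this.trans (by exact_mod_cast hj)
  have hPchi : ∀ l : List ℝ≥0, l.Pairwise (· ≤ ·) →
      P.real {w : Path | ∀ t ∈ l, w t = true} = V p l := by
    intro l hl
    rw [← hLchi l hl, ← RealRMK.integral_rieszMeasure (L N f hf hf1) (chiC l)]
    have hcl : MeasurableSet {w : Path | ∀ t ∈ l, w t = true} := by
      have : {w : Path | ∀ t ∈ l, w t = true} = (fun w : Path => chi l w) ⁻¹' {1} := by
        ext w
        simp only [Set.mem_ofPred_eq, Set.mem_preimage, Set.mem_singleton_iff, chi]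
        constructor
        · intro h; rw [if_pos h]
        · intro h
          by_contra hcon
          rw [if_neg hcon] at h
          norm_num at h
      rw [this]
      exact (continuous_chi l).measurable (measurableSet_singleton _)
    have h3 : (fun w : Path => chiC l w) =
        Set.indicator {w : Path | ∀ t ∈ l, w t = true} (fun _ => (1 : ℝ)) := by
      funext w
      rw [chiC_apply]
      unfold chi
      by_cases h : ∀ t ∈ l, w t = true
      · rw [if_pos h, Set.indicator_of_mem (by exact h)]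
      · rw [if_neg h, Set.indicator_of_notMem (by exact h)]
    rw [h3, integral_indicator_const _ hcl]
    simp [hP]
  refine ⟨P, ?_, hPchi⟩
  have h4 := hPchi [] List.Pairwise.nil
  rw [V_nil] at h4
  have h5 : {w : Path | ∀ t ∈ ([] : List ℝ≥0), w t = true} = Set.univ := by
    ext w; simp
  rw [h5, measureReal_def] at h4
  refine ⟨?_⟩
  rw [← ENNReal.toReal_eq_one_iff]
  exact h4

end LimitPart

/-! ## Perturbed truncated exponentials -/


lemma isPFunction_of_process (p : ℝ≥0 → ℝ) (hp0 : p 0 = 1) (P : Measure Path)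
    (hP : IsProbabilityMeasure P)
    (h : ∀ l : List ℝ≥0, l.Pairwise (· ≤ ·) → P.real {w : Path | ∀ t ∈ l, w t = true} = V p l) :
    IsPFunction p := by
  refine ⟨hp0, fun t => ?_, Path, inferInstance, P, fun t => {w : Path | w t = true}, hP,
    fun t => ?_, fun n t ht => ?_⟩
  · have h1 := h [t] (List.pairwise_singleton _ _)
    rw [V_cons, List.map_nil, V_nil, mul_one] at h1
    rw [← h1]
    exact ⟨measureReal_nonneg, measureReal_le_one⟩
  · show MeasurableSet ((fun w : Path => w t) ⁻¹' {true})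
    have h2 : Continuous (fun w : Path => w t) := continuous_apply t
    exact ((isClopen_discrete {true}).preimage h2).2.measurableSet
  · have h1 := h (List.ofFn t) (by
      rw [List.pairwise_ofFn]
      intro i j hij
      exact ht hij.le)
    have h2 := h (List.ofFn (fun i : Fin n => t i.succ - t 0)) (by
      rw [List.pairwise_ofFn]
      intro i j hij
      exact tsub_le_tsub_right (ht (Fin.succ_le_succ_iff.mpr hij.le)) _)
    have e1 : (⋂ i, {w : Path | w (t i) = true}) = {w : Path | ∀ s ∈ List.ofFn t, w s = true} := by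
      ext w
      simp only [Set.mem_iInter, Set.mem_ofPred_eq, List.mem_ofFn]
      constructor
      · rintro h s ⟨i, rfl⟩; exact h i
      · intro h i; exact h _ ⟨i, rfl⟩
    have e2 : (⋂ i : Fin n, {w : Path | w (t i.succ - t 0) = true}) =
        {w : Path | ∀ s ∈ List.ofFn (fun i : Fin n => t i.succ - t 0), w s = true} := by
      ext w
      simp only [Set.mem_iInter, Set.mem_ofPred_eq, List.mem_ofFn]
      constructor
      · rintro h s ⟨i, rfl⟩; exact h i
      · intro h i; exact h _ ⟨i, rfl⟩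
    rw [e1, e2, h1, h2, List.ofFn_succ, V_cons, List.map_ofFn]
    rfl

/-- perturbed truncated exponential -/
noncomputable def pert (α : ℝ) (K : ℝ → ℝ) (t : ℝ≥0) : ℝ :=
  Real.exp (-(α * min (t : ℝ) 1)) * (1 + K t)

structure KHyp (ε : ℝ) (K : ℝ → ℝ) : Prop where
  h1 : ∀ t, t ≤ 2 → K t = 0
  h2 : ∀ t, 3 ≤ t → K t = 0
  lip : ∀ s t, |K t - K s| ≤ ε * |t - s|
  sec : ∀ t h, 0 ≤ h → |K (t + 2 * h) - 2 * K (t + h) + K t| ≤ ε * h ^ 2

lemma KHyp.continuous {ε : ℝ} {K : ℝ → ℝ} (h : KHyp ε K) : Continuous K := by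
  have hε : 0 ≤ ε := by
    have := h.lip 0 1
    simp at this
    exact (abs_nonneg _).trans this
  have : LipschitzWith ⟨ε, hε⟩ K := by
    apply LipschitzWith.of_dist_le_mul
    intro s t
    rw [Real.dist_eq, Real.dist_eq]
    exact h.lip t s
  exact this.continuous

lemma pert_isStd_aux {α : ℝ} (hα : 0 < α) {ε : ℝ} {K : ℝ → ℝ} (hK : KHyp ε K)
    {a A B ρ : ℝ} (ha : a = Real.exp (-(α / 2))) (hA : A = Real.exp (-α)) (hB : B = 1 - A)
    (hρ : 2 * ρ = a - A) (hε0 : 0 ≤ ε) (hε1 : 6 * ε ≤ B ^ 2 * ρ ^ 6)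
    (hε2 : 6 * ε ≤ B ^ 2 * (A * ρ ^ 5)) : IsStd (pert α K) := by
  have hA0 : 0 < A := by rw [hA]; exact Real.exp_pos _
  have hA1 : A < 1 := by rw [hA, Real.exp_lt_one_iff]; linarith
  have hB0 : 0 < B := by linarith
  have hB1 : B < 1 := by linarith
  have hcont : Continuous (pert α K) := by
    unfold pert
    have := hK.continuous
    fun_prop
  have hp0 : pert α K 0 = 1 := by
    simp [pert, hK.h1 0 (by norm_num)]
  have hyp : ∀ M : ℕ, 1 ≤ M → Hyp (Real.exp (-(α / (2 * M)))) (2 * ε / B ^ 2) ρ M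
      (fun n => K ((n : ℝ) / (2 * M))) := by
    intro M hM
    have hM' : (0 : ℝ) < M := by exact_mod_cast hM
    set x := Real.exp (-(α / (2 * M))) with hx
    have hx0 : 0 < x := Real.exp_pos _
    have hx1 : x < 1 := by
      rw [hx, Real.exp_lt_one_iff]
      have : 0 < α / (2 * M) := by positivity
      linarith
    have hxM : x ^ M = a := by
      rw [hx, ← Real.exp_nat_mul, ha]
      congr 1
      field_simp
    have hx2M : x ^ (2 * M) = A := by
      rw [hx, ← Real.exp_nat_mul, hA]
      congr 1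
      push_cast
      field_simp
    have hbern : B ≤ 2 * M * (1 - x) := by
      have h1 : (1 - x) * ∑ k ∈ range (2 * M), x ^ k = 1 - x ^ (2 * M) := mul_neg_geom_sum x (2 * M)
      have h2 : ∑ k ∈ range (2 * M), x ^ k ≤ ∑ k ∈ range (2 * M), (1 : ℝ) :=
        Finset.sum_le_sum (fun k _ => pow_le_one₀ hx0.le hx1.le)
      rw [Finset.sum_const, Finset.card_range, nsmul_eq_mul, mul_one] at h2
      push_cast at h2
      rw [hB, ← hx2M, ← h1]
      nlinarith
    have hinv : 1 / (2 * (M : ℝ)) ≤ (1 - x) / B := by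
      rw [div_le_div_iff₀ (by positivity) hB0]
      linarith
    have hy : 0 < 1 - x := by linarith
    have hBB : 1 / B ≤ 1 / B ^ 2 := by
      apply one_div_le_one_div_of_le (by positivity)
      nlinarith
    have hinv0 : 0 < 1 / (2 * (M : ℝ)) := by positivity
    have hfirst : ∀ n : ℕ, |K (((n + 1 : ℕ) : ℝ) / (2 * M)) - K ((n : ℝ) / (2 * M))| ≤
        ε * (1 / (2 * M)) := by
      intro n
      have h3 := hK.lip ((n : ℝ) / (2 * M)) (((n + 1 : ℕ) : ℝ) / (2 * M))
      have h4 : ((n + 1 : ℕ) : ℝ) / (2 * M) - (n : ℝ) / (2 * M) = 1 / (2 * M) := by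
        push_cast; ring
      rw [h4, abs_of_pos hinv0] at h3
      exact h3
    refine ⟨hx0, hx1, hM, ?_, ?_, ?_, ?_, ?_, ?_, ?_, ?_⟩
    · rw [hxM, hx2M, hρ]
    · intro n hn
      apply hK.h1
      rw [div_le_iff₀ (by positivity)]
      have : (n : ℝ) ≤ ((4 * M : ℕ) : ℝ) := by exact_mod_cast hn
      push_cast at this
      linarith
    · intro n hn
      apply hK.h2
      rw [le_div_iff₀ (by positivity)]
      have : ((6 * M : ℕ) : ℝ) ≤ (n : ℝ) := by exact_mod_cast hn
      push_cast at this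
      linarith
    · positivity
    · intro n
      refine (hfirst n).trans ?_
      calc ε * (1 / (2 * M)) ≤ ε * ((1 - x) / B) := by gcongr
        _ = ε * (1 - x) * (1 / B) := by ring
        _ ≤ ε * (1 - x) * (1 / B ^ 2) := by gcongr
        _ ≤ ε * (1 - x) * (1 / B ^ 2) + ε * (1 - x) * (1 / B ^ 2) := by
            have : 0 ≤ ε * (1 - x) * (1 / B ^ 2) := by positivity
            linarith
        _ = 2 * ε / B ^ 2 * (1 - x) := by ring
    · intro n
      have h5 := hK.sec ((n : ℝ) / (2 * M)) (1 / (2 * M)) hinv0.le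
      have h6 : (n : ℝ) / (2 * M) + 2 * (1 / (2 * M)) = ((n + 2 : ℕ) : ℝ) / (2 * M) := by
        push_cast; ring
      have h7 : (n : ℝ) / (2 * M) + 1 / (2 * M) = ((n + 1 : ℕ) : ℝ) / (2 * M) := by
        push_cast; ring
      rw [h6, h7] at h5
      have h8 := hfirst n
      have h9 : K (((n + 2 : ℕ) : ℝ) / (2 * M)) - (1 + x) * K (((n + 1 : ℕ) : ℝ) / (2 * M))
          + x * K ((n : ℝ) / (2 * M)) =
          (K (((n + 2 : ℕ) : ℝ) / (2 * M)) - 2 * K (((n + 1 : ℕ) : ℝ) / (2 * M))
            + K ((n : ℝ) / (2 * M))) +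
          (1 - x) * (K (((n + 1 : ℕ) : ℝ) / (2 * M)) - K ((n : ℝ) / (2 * M))) := by ring
      rw [h9]
      calc |(K (((n + 2 : ℕ) : ℝ) / (2 * M)) - 2 * K (((n + 1 : ℕ) : ℝ) / (2 * M))
            + K ((n : ℝ) / (2 * M))) +
          (1 - x) * (K (((n + 1 : ℕ) : ℝ) / (2 * M)) - K ((n : ℝ) / (2 * M)))|
          ≤ |K (((n + 2 : ℕ) : ℝ) / (2 * M)) - 2 * K (((n + 1 : ℕ) : ℝ) / (2 * M))
            + K ((n : ℝ) / (2 * M))| +
            |(1 - x) * (K (((n + 1 : ℕ) : ℝ) / (2 * M)) - K ((n : ℝ) / (2 * M)))| := abs_add_le _ _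
        _ ≤ ε * (1 / (2 * M)) ^ 2 + (1 - x) * (ε * (1 / (2 * M))) := by
            rw [abs_mul, abs_of_pos hy]
            gcongr
        _ ≤ ε * ((1 - x) / B) ^ 2 + (1 - x) * (ε * ((1 - x) / B)) := by gcongr
        _ = ε * (1 - x) ^ 2 * (1 / B ^ 2) + ε * (1 - x) ^ 2 * (1 / B) := by ring
        _ ≤ ε * (1 - x) ^ 2 * (1 / B ^ 2) + ε * (1 - x) ^ 2 * (1 / B ^ 2) := by gcongr
        _ = 2 * ε / B ^ 2 * (1 - x) ^ 2 := by ring
    · have : 3 * (2 * ε / B ^ 2) = 6 * ε / B ^ 2 := by ring
      rw [this, div_le_iff₀ (by positivity)]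
      linarith
    · have : 3 * (2 * ε / B ^ 2) = 6 * ε / B ^ 2 := by ring
      rw [this, div_le_iff₀ (by positivity), hx2M]
      linarith
  have hskel : ∀ (M : ℕ), 1 ≤ M → ∀ n : ℕ, pert α K ((n : ℝ≥0) / ((2 * M : ℕ) : ℝ≥0)) =
      useq (Real.exp (-(α / (2 * M)))) M (fun n => K ((n : ℝ) / (2 * M))) n := by
    intro M hM n
    have hM' : (0 : ℝ) < M := by exact_mod_cast hM
    unfold pert useq
    have hx2M : Real.exp (-(α / (2 * M))) ^ (2 * M) = Real.exp (-α) := by
      rw [← Real.exp_nat_mul]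
      congr 1
      push_cast
      field_simp
    have hc : (((n : ℝ≥0) / ((2 * M : ℕ) : ℝ≥0) : ℝ≥0) : ℝ) = (n : ℝ) / (2 * M) := by
      push_cast; rfl
    rw [hc]
    rcases le_or_gt n (2 * M) with h | h
    · rw [min_eq_left h]
      have h1 : (n : ℝ) / (2 * M) ≤ 1 := by
        rw [div_le_one (by positivity)]
        exact_mod_cast h
      have hKn : K ((n : ℝ) / (2 * M)) = 0 := hK.h1 _ (by linarith)
      simp only [hKn]
      rw [min_eq_left h1, ← Real.exp_nat_mul]
      rw [mul_zero, add_zero, add_zero, mul_one]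
      congr 1
      field_simp
    · rw [min_eq_right h.le, hx2M]
      have h1 : 1 ≤ (n : ℝ) / (2 * M) := by
        rw [one_le_div (by positivity)]
        exact_mod_cast h.le
      rw [min_eq_right h1, mul_one]
      ring
  have hren : ∀ j : ℕ, IsRenewal (useq (Real.exp (-(α / (2 * ((j + 1 : ℕ) : ℝ))))) (j + 1)
      (fun n => K ((n : ℝ) / (2 * ((j + 1 : ℕ) : ℝ))))) := fun j =>
    isRenewal_of_hyp (hyp (j + 1) (by omega))
  choose _ f hf hf1 hr using hren
  have hN : Tendsto (fun j : ℕ => 2 * (j + 1)) atTop atTop := by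
    apply tendsto_atTop_mono (f := id) _ tendsto_id
    intro j
    simp only [id]
    omega
  obtain ⟨P, hP, hPV⟩ := exists_process (pert α K) hcont hp0 (fun j => 2 * (j + 1)) hN f hf hf1 (by
    intro j n
    have h1 := hr j n
    rw [← hskel (j + 1) (by omega)] at h1
    rw [h1]
    apply Finset.sum_congr rfl
    intro k _
    rw [← hskel (j + 1) (by omega)])
  refine ⟨isPFunction_of_process _ hp0 P hP hPV, ?_⟩
  have := hcont.tendsto 0
  rw [hp0] at this
  exact this

theorem pert_isStd {α : ℝ} (hα : 0 < α) :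
    ∃ ε : ℝ, 0 < ε ∧ ∀ K, KHyp ε K → IsStd (pert α K) := by
  set a := Real.exp (-(α / 2)) with ha
  set A := Real.exp (-α) with hA
  have hA0 : 0 < A := Real.exp_pos _
  have hA1 : A < 1 := by rw [hA, Real.exp_lt_one_iff]; linarith
  have haA : A < a := by
    rw [ha, hA, Real.exp_lt_exp]; linarith
  set ρ := (a - A) / 2 with hρ
  have hρ0 : 0 < ρ := by rw [hρ]; linarith
  have hB0 : 0 < 1 - A := by linarith
  refine ⟨min ((1 - A) ^ 2 * ρ ^ 6 / 6) ((1 - A) ^ 2 * (A * ρ ^ 5) / 6), ?_, fun K hK => ?_⟩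
  · positivity
  · apply pert_isStd_aux (ρ := ρ) hα hK ha hA rfl (by rw [hρ]; ring) (by positivity)
    · have := min_le_left ((1 - A) ^ 2 * ρ ^ 6 / 6) ((1 - A) ^ 2 * (A * ρ ^ 5) / 6)
      linarith
    · have := min_le_right ((1 - A) ^ 2 * ρ ^ 6 / 6) ((1 - A) ^ 2 * (A * ρ ^ 5) / 6)
      linarith

/-- a smooth bump with support `(2,3)` -/
lemma exists_bump : ∃ (K0 : ℝ → ℝ) (C0 C1 : ℝ), 0 ≤ C0 ∧ 0 ≤ C1 ∧ K0 (5 / 2) = 1 ∧
    (∀ t, 0 ≤ K0 t ∧ K0 t ≤ 1) ∧ (∀ t, t ≤ 2 → K0 t = 0) ∧ (∀ t, 3 ≤ t → K0 t = 0) ∧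
    (∀ s t, |K0 t - K0 s| ≤ C0 * |t - s|) ∧
    (∀ t h, 0 ≤ h → |K0 (t + 2 * h) - 2 * K0 (t + h) + K0 t| ≤ C1 * h ^ 2) := by
  let b : ContDiffBump (5 / 2 : ℝ) := ⟨1 / 4, 1 / 2, by norm_num, by norm_num⟩
  have hcd : ContDiff ℝ 2 b := b.contDiff
  have hcs : HasCompactSupport b := b.hasCompactSupport
  obtain ⟨C0, hC0⟩ := hcd.lipschitzWith_of_hasCompactSupport hcs (by norm_num)
  have hcd' : ContDiff ℝ 1 (deriv b) := ContDiff.deriv' hcd
  have hcs' : HasCompactSupport (deriv b) := hcs.deriv
  obtain ⟨C1, hC1⟩ := hcd'.lipschitzWith_of_hasCompactSupport hcs' (by norm_num)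
  have hdiff : Differentiable ℝ b := hcd.differentiable (by norm_num)
  refine ⟨b, C0, C1, C0.2, C1.2, ?_, fun t => ⟨b.nonneg, b.le_one⟩, ?_, ?_, ?_, ?_⟩
  · apply b.one_of_mem_closedBall
    simp [b]
  · intro t ht
    apply b.zero_of_le_dist
    rw [Real.dist_eq, abs_of_nonpos (by linarith)]
    show (1 : ℝ) / 2 ≤ _
    linarith
  · intro t ht
    apply b.zero_of_le_dist
    rw [Real.dist_eq, abs_of_nonneg (by linarith)]
    show (1 : ℝ) / 2 ≤ _
    linarith
  · intro s t
    have := hC0.dist_le_mul t s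
    rwa [Real.dist_eq, Real.dist_eq] at this
  · intro t h hh
    have key : ∀ s ∈ Set.Icc (0 : ℝ) h, ‖deriv (fun s => b (t + h + s) - b (t + s)) s‖ ≤ C1 * h := by
      intro s _
      have e1 : deriv (fun s => b (t + h + s) - b (t + s)) s =
          deriv b (t + h + s) - deriv b (t + s) := by
        rw [deriv_fun_sub, deriv_comp_const_add, deriv_comp_const_add]
        · exact (hdiff _).comp s ((differentiable_id.const_add _) s)
        · exact (hdiff _).comp s ((differentiable_id.const_add _) s)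
      rw [e1]
      have := hC1.dist_le_mul (t + h + s) (t + s)
      rw [Real.dist_eq, Real.dist_eq] at this
      have e2 : t + h + s - (t + s) = h := by ring
      rw [e2, abs_of_nonneg hh] at this
      exact this
    have hd : ∀ s ∈ Set.Icc (0 : ℝ) h, DifferentiableAt ℝ (fun s => b (t + h + s) - b (t + s)) s := by
      intro s _
      apply DifferentiableAt.sub
      · exact (hdiff _).comp s ((differentiable_id.const_add _) s)
      · exact (hdiff _).comp s ((differentiable_id.const_add _) s)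
    have := (convex_Icc (0 : ℝ) h).norm_image_sub_le_of_norm_deriv_le hd key
      (Set.left_mem_Icc.mpr hh) (Set.right_mem_Icc.mpr hh)
    rw [Real.norm_eq_abs, Real.norm_eq_abs, sub_zero, abs_of_nonneg hh] at this
    have e3 : b (t + 2 * h) - 2 * b (t + h) + b t =
        b (t + h + h) - b (t + h) - (b (t + h + 0) - b (t + 0)) := by
      rw [add_zero, add_zero, show t + h + h = t + 2 * h by ring]
      ring
    rw [e3]
    calc _ ≤ C1 * h * h := this
      _ = C1 * h ^ 2 := by ring

/-- both the small bump and its reciprocal satisfy the hypotheses -/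
lemma exists_pair {ε : ℝ} (hε : 0 < ε) : ∃ K : ℝ → ℝ, KHyp ε K ∧
    KHyp ε (fun t => 1 / (1 + K t) - 1) ∧ (∀ t, 0 ≤ K t) ∧ 0 < K (5 / 2) := by
  obtain ⟨K0, C0, C1, hC0, hC1, h1, h01, hz1, hz2, hl, hs⟩ := exists_bump
  set η := min 1 (ε / (C0 + C1 + 2 * C0 ^ 2 + 1)) with hη
  have hden : 0 < C0 + C1 + 2 * C0 ^ 2 + 1 := by positivity
  have hη0 : 0 < η := by rw [hη]; positivity
  have hη1 : η ≤ 1 := min_le_left _ _
  have hηε : η * (C0 + C1 + 2 * C0 ^ 2 + 1) ≤ ε := by
    have : η ≤ ε / (C0 + C1 + 2 * C0 ^ 2 + 1) := min_le_right _ _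
    rwa [le_div_iff₀ hden] at this
  have hv : ∀ t, 1 ≤ 1 + η * K0 t := by
    intro t
    have := (h01 t).1
    have : 0 ≤ η * K0 t := by positivity
    linarith
  have hb1 : η * C0 ≤ ε := by
    have : 0 ≤ η * (C1 + 2 * C0 ^ 2 + 1) := by positivity
    nlinarith
  have hb2 : η * C1 ≤ ε := by
    have : 0 ≤ η * (C0 + 2 * C0 ^ 2 + 1) := by positivity
    nlinarith
  have hb3 : η * (C1 + 2 * C0 ^ 2) ≤ ε := by
    have : 0 ≤ η * (C0 + 1) := by positivity
    nlinarith
  have hlip : ∀ s t, |η * K0 t - η * K0 s| ≤ η * C0 * |t - s| := by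
    intro s t
    rw [← mul_sub, abs_mul, abs_of_pos hη0, mul_assoc]
    gcongr
    exact hl s t
  have hsec : ∀ t h, 0 ≤ h →
      |η * K0 (t + 2 * h) - 2 * (η * K0 (t + h)) + η * K0 t| ≤ η * C1 * h ^ 2 := by
    intro t h hh
    have : η * K0 (t + 2 * h) - 2 * (η * K0 (t + h)) + η * K0 t =
        η * (K0 (t + 2 * h) - 2 * K0 (t + h) + K0 t) := by ring
    rw [this, abs_mul, abs_of_pos hη0, mul_assoc]
    gcongr
    exact hs t h hh
  refine ⟨fun t => η * K0 t, ⟨?_, ?_, ?_, ?_⟩, ⟨?_, ?_, ?_, ?_⟩, ?_, ?_⟩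
  · intro t ht; simp [hz1 t ht]
  · intro t ht; simp [hz2 t ht]
  · intro s t
    exact (hlip s t).trans (by gcongr)
  · intro t h hh
    exact (hsec t h hh).trans (by gcongr)
  · intro t ht; simp [hz1 t ht]
  · intro t ht; simp [hz2 t ht]
  · intro s t
    have hs' := hv s
    have ht' := hv t
    have e : 1 / (1 + η * K0 t) - 1 - (1 / (1 + η * K0 s) - 1) =
        -(η * K0 t - η * K0 s) / ((1 + η * K0 t) * (1 + η * K0 s)) := by
      have : (1 + η * K0 t) ≠ 0 := by linarith
      have : (1 + η * K0 s) ≠ 0 := by linarith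
      field_simp
      ring
    rw [e, abs_div, abs_neg]
    have h2 : 1 ≤ |(1 + η * K0 t) * (1 + η * K0 s)| := by
      rw [abs_of_pos (by positivity)]
      nlinarith
    calc |η * K0 t - η * K0 s| / |(1 + η * K0 t) * (1 + η * K0 s)|
        ≤ |η * K0 t - η * K0 s| / 1 := by gcongr
      _ ≤ η * C0 * |t - s| := by rw [div_one]; exact hlip s t
      _ ≤ ε * |t - s| := by gcongr
  · intro t h hh
    set v1 := 1 + η * K0 (t + 2 * h) with hv1
    set v0 := 1 + η * K0 (t + h) with hv0
    set v2 := 1 + η * K0 t with hv2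
    have g1 : 1 ≤ v1 := hv _
    have g0 : 1 ≤ v0 := hv _
    have g2 : 1 ≤ v2 := hv _
    have e : 1 / v1 - 1 - 2 * (1 / v0 - 1) + (1 / v2 - 1) =
        -(v1 - 2 * v0 + v2) / (v1 * v2) + (-(2 * ((v1 - v0) * (v2 - v0)))) / (v0 * v1 * v2) := by
      have : v0 ≠ 0 := by linarith
      have : v1 ≠ 0 := by linarith
      have : v2 ≠ 0 := by linarith
      field_simp
      ring
    rw [e]
    have d1 : |v1 - v0| ≤ η * C0 * h := by
      have := hlip (t + h) (t + 2 * h)
      have e1 : t + 2 * h - (t + h) = h := by ring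
      rw [e1, abs_of_nonneg hh] at this
      have e2 : v1 - v0 = η * K0 (t + 2 * h) - η * K0 (t + h) := by rw [hv1, hv0]; ring
      rw [e2]; exact this
    have d2 : |v2 - v0| ≤ η * C0 * h := by
      have := hlip (t + h) t
      have e1 : t - (t + h) = -h := by ring
      rw [e1, abs_neg, abs_of_nonneg hh] at this
      have e2 : v2 - v0 = η * K0 t - η * K0 (t + h) := by rw [hv2, hv0]; ring
      rw [e2]; exact this
    have d3 : |v1 - 2 * v0 + v2| ≤ η * C1 * h ^ 2 := by
      have := hsec t h hh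
      have e2 : v1 - 2 * v0 + v2 =
          η * K0 (t + 2 * h) - 2 * (η * K0 (t + h)) + η * K0 t := by rw [hv1, hv0, hv2]; ring
      rw [e2]; exact this
    have p1 : 1 ≤ v1 * v2 := by nlinarith
    have p2 : 1 ≤ v0 * v1 * v2 := by
      have : 1 ≤ v0 * v1 := by nlinarith
      nlinarith
    calc |(-(v1 - 2 * v0 + v2) / (v1 * v2) + (-(2 * ((v1 - v0) * (v2 - v0)))) / (v0 * v1 * v2))|
        ≤ |(-(v1 - 2 * v0 + v2) / (v1 * v2))| +
          |(-(2 * ((v1 - v0) * (v2 - v0)))) / (v0 * v1 * v2)| := abs_add_le _ _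
      _ = |v1 - 2 * v0 + v2| / (v1 * v2) + 2 * (|v1 - v0| * |v2 - v0|) / (v0 * v1 * v2) := by
          have q1 : |v1 * v2| = v1 * v2 := abs_of_pos (by linarith)
          have q2 : |v0 * v1 * v2| = v0 * v1 * v2 := abs_of_pos (by linarith)
          have q3 : |2 * ((v1 - v0) * (v2 - v0))| = 2 * (|v1 - v0| * |v2 - v0|) := by
            rw [abs_mul, abs_mul, abs_two]
          rw [abs_div, abs_div, abs_neg, abs_neg, q1, q2, q3]
      _ ≤ |v1 - 2 * v0 + v2| / 1 + 2 * (|v1 - v0| * |v2 - v0|) / 1 := by gcongr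
      _ ≤ η * C1 * h ^ 2 + 2 * ((η * C0 * h) * (η * C0 * h)) := by
          rw [div_one, div_one]
          gcongr
      _ = η * (C1 + η * (2 * C0 ^ 2)) * h ^ 2 := by ring
      _ ≤ η * (C1 + 1 * (2 * C0 ^ 2)) * h ^ 2 := by gcongr
      _ ≤ ε * h ^ 2 := by rw [one_mul]; gcongr
  · intro t
    exact mul_nonneg hη0.le (h01 t).1
  · show 0 < η * K0 (5 / 2)
    rw [h1, mul_one]; exact hη0

lemma IsPFunction.scale {p : ℝ≥0 → ℝ} (h : IsPFunction p) (c : ℝ≥0) :
    IsPFunction (fun t => p (c * t)) := by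
  obtain ⟨h0, h1, Ω, mΩ, P, E, hP, hE, hreg⟩ := h
  refine ⟨by simpa using h0, fun t => h1 _, Ω, mΩ, P, fun t => E (c * t), hP, fun t => hE _, ?_⟩
  intro n t ht
  have := hreg n (fun i => c * t i) (fun i j hij => by
    have := ht hij
    show c * t i ≤ c * t j
    gcongr)
  simp only [← mul_tsub] at this
  exact this

lemma IsStd.scale {p : ℝ≥0 → ℝ} (h : IsStd p) (c : ℝ≥0) : IsStd (fun t => p (c * t)) := by
  refine ⟨h.1.scale c, ?_⟩
  have h1 : Tendsto (fun t : ℝ≥0 => c * t) (𝓝 0) (𝓝 0) := by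
    have : Continuous (fun t : ℝ≥0 => c * t) := by fun_prop
    have := this.tendsto 0
    rwa [mul_zero] at this
  exact h.2.comp h1

/-- the third renewal inequality -/
lemma IsPFunction.three {p : ℝ≥0 → ℝ} (h : IsPFunction p) (s : ℝ≥0) :
    0 ≤ p (3 * s) - 2 * (p s * p (2 * s)) + p s ^ 3 := by
  obtain ⟨h0, h1, Ω, mΩ, P, E, hP, hE, hreg⟩ := h
  have e1 : (2 : ℝ≥0) * s - s = s := by
    rw [two_mul, add_tsub_cancel_right]
  have e2 : (3 : ℝ≥0) * s - s = 2 * s := by
    rw [show (3 : ℝ≥0) * s = 2 * s + s by ring, add_tsub_cancel_right]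
  have e3 : (3 : ℝ≥0) * s - 2 * s = s := by
    rw [show (3 : ℝ≥0) * s = s + 2 * s by ring, add_tsub_cancel_right]
  have f1 : ∀ t, P.real (E t) = p t := by
    intro t
    have := hreg 0 (fun _ => t) (fun i j _ => le_rfl)
    have g1 : (⋂ _ : Fin (0 + 1), E t) = E t := by
      ext w
      rw [Set.mem_iInter]
      exact ⟨fun h => h 0, fun h _ => h⟩
    have g2 : (⋂ _ : Fin 0, E (t - t)) = Set.univ := by
      ext w
      rw [Set.mem_iInter]
      exact ⟨fun _ => Set.mem_univ _, fun _ i => i.elim0⟩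
    rw [g1, g2] at this
    rw [this]
    simp
  have f2 : ∀ a b : ℝ≥0, a ≤ b → P.real (E a ∩ E b) = p a * p (b - a) := by
    intro a b hab
    have := hreg 1 ![a, b] (by
      intro i j hij
      fin_cases i <;> fin_cases j <;> simp_all)
    have g1 : (⋂ i, E (![a, b] i)) = E a ∩ E b := by
      ext w; simp [Fin.forall_fin_two]
    have g2 : (⋂ i : Fin 1, E (![a, b] i.succ - ![a, b] 0)) = E (b - a) := by
      ext w; simp
    rw [g1, g2, f1] at this
    exact this
  have f3 : P.real (E s ∩ E (2 * s) ∩ E (3 * s)) = p s ^ 3 := by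
    have hs2 : s ≤ 2 * s := by rw [two_mul]; exact le_add_self
    have hs3 : 2 * s ≤ 3 * s := by
      rw [show (3 : ℝ≥0) * s = s + 2 * s by ring]; exact le_add_self
    have := hreg 2 ![s, 2 * s, 3 * s] (by
      intro i j hij
      fin_cases i <;> fin_cases j <;> simp_all [hs2.trans hs3])
    have g1 : (⋂ i, E (![s, 2 * s, 3 * s] i)) = E s ∩ E (2 * s) ∩ E (3 * s) := by
      ext w; simp [Fin.forall_fin_succ, and_assoc]
    have g2 : (⋂ i : Fin 2, E (![s, 2 * s, 3 * s] i.succ - ![s, 2 * s, 3 * s] 0)) =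
        E s ∩ E (2 * s) := by
      ext w; simp [Fin.forall_fin_two, e1, e2]
    rw [g1, g2, f2 s (2 * s) hs2, e1] at this
    rw [this]
    simp
    ring
  have hs1 : s ≤ 3 * s := by
    rw [show (3 : ℝ≥0) * s = 2 * s + s by ring]; exact le_add_self
  have hs3 : 2 * s ≤ 3 * s := by
    rw [show (3 : ℝ≥0) * s = s + 2 * s by ring]; exact le_add_self
  have k1 := f2 s (3 * s) hs1
  rw [e2] at k1
  have k2 := f2 (2 * s) (3 * s) hs3
  rw [e3] at k2
  -- inclusion-exclusion
  have k3 : P.real ((E s ∩ E (3 * s)) ∪ (E (2 * s) ∩ E (3 * s))) +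
      P.real ((E s ∩ E (3 * s)) ∩ (E (2 * s) ∩ E (3 * s))) =
      P.real (E s ∩ E (3 * s)) + P.real (E (2 * s) ∩ E (3 * s)) :=
    measureReal_union_add_inter ((hE _).inter (hE _))
  have k4 : (E s ∩ E (3 * s)) ∩ (E (2 * s) ∩ E (3 * s)) = E s ∩ E (2 * s) ∩ E (3 * s) := by
    ext w; simp only [Set.mem_inter_iff]; tauto
  have k5 : P.real ((E s ∩ E (3 * s)) ∪ (E (2 * s) ∩ E (3 * s))) ≤ P.real (E (3 * s)) := by
    refine measureReal_mono (fun w hw => ?_) (measure_ne_top _ _)
    rcases hw with hw | hw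
    · exact hw.2
    · exact hw.2
  rw [k4, f3, k1, k2] at k3
  rw [f1] at k5
  nlinarith

lemma not_infDiv {α : ℝ} (hα : 0 < α) {ε : ℝ} {K : ℝ → ℝ} (hK : KHyp ε K)
    (hK0 : 0 < K (5 / 2)) : ¬ InfDiv (pert α K) := by
  intro h
  set A := Real.exp (-α) with hA
  have hA0 : 0 < A := Real.exp_pos _
  set κ := K (5 / 2) with hκ
  set ℓ := Real.log (1 + κ) with hℓ
  have hℓ0 : 0 < ℓ := Real.log_pos (by linarith)
  obtain ⟨n, hn⟩ := exists_nat_gt (α ^ 2 / (2 * A * ℓ))
  have hn0 : (0 : ℝ) < n := lt_of_le_of_lt (by positivity) hn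
  have hn1 : 1 ≤ n := by
    have : 0 < n := by exact_mod_cast hn0
    omega
  obtain ⟨q, hq, hqn⟩ := h n hn1
  have hq01 := hq.1.2.1
  set s : ℝ≥0 := 5 / 4 with hs
  have e1 : pert α K s = A := by
    unfold pert
    have h1 : ((s : ℝ≥0) : ℝ) = 5 / 4 := by rw [hs]; push_cast; norm_num
    rw [h1, hK.h1 _ (by norm_num), min_eq_right (by norm_num)]
    rw [hA]; simp
  have e2 : pert α K (2 * s) = A * (1 + κ) := by
    unfold pert
    have h1 : ((2 * s : ℝ≥0) : ℝ) = 5 / 2 := by rw [hs]; push_cast; norm_num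
    rw [h1, min_eq_right (by norm_num), mul_one]
  have e3 : pert α K (3 * s) = A := by
    unfold pert
    have h1 : ((3 * s : ℝ≥0) : ℝ) = 15 / 4 := by rw [hs]; push_cast; norm_num
    rw [h1, hK.h2 _ (by norm_num), min_eq_right (by norm_num)]
    rw [hA]; simp
  -- the n-th roots
  have r1 : q s = Real.exp (-(α / n)) := by
    have h2 : Real.exp (-(α / n)) ^ n = A := by
      rw [← Real.exp_nat_mul, hA]
      congr 1
      field_simp
    have h3 := hqn s
    rw [e1, ← h2] at h3
    exact (pow_left_inj₀ (hq01 s).1 (Real.exp_pos _).le (by omega)).mp h3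
  have r3 : q (3 * s) = Real.exp (-(α / n)) := by
    have h2 : Real.exp (-(α / n)) ^ n = A := by
      rw [← Real.exp_nat_mul, hA]
      congr 1
      field_simp
    have h3 := hqn (3 * s)
    rw [e3, ← h2] at h3
    exact (pow_left_inj₀ (hq01 _).1 (Real.exp_pos _).le (by omega)).mp h3
  have r2 : q (2 * s) = Real.exp (-(α / n)) * Real.exp (ℓ / n) := by
    have h2 : (Real.exp (-(α / n)) * Real.exp (ℓ / n)) ^ n = A * (1 + κ) := by
      rw [mul_pow, ← Real.exp_nat_mul, ← Real.exp_nat_mul, hA]
      have h4 : (n : ℝ) * (ℓ / n) = ℓ := by field_simp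
      have h5 : (n : ℝ) * -(α / n) = -α := by field_simp
      rw [h4, h5, hℓ, Real.exp_log (by linarith)]
    have h3 := hqn (2 * s)
    rw [e2, ← h2] at h3
    exact (pow_left_inj₀ (hq01 _).1 (by positivity) (by omega)).mp h3
  have key := hq.1.three s
  rw [r1, r2, r3] at key
  set a := Real.exp (-(α / n)) with ha
  have ha0 : 0 < a := Real.exp_pos _
  have hg : 1 + ℓ / n ≤ Real.exp (ℓ / n) := by
    have := Real.add_one_le_exp (ℓ / n)
    linarith
  have ha1 : 1 - a ≤ α / n := by
    have := Real.add_one_le_exp (-(α / n))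
    rw [← ha] at this
    linarith
  have ha2 : a ≤ 1 := by
    rw [ha, Real.exp_le_one_iff]
    have : 0 < α / n := by positivity
    linarith
  have haA : A ≤ a := by
    rw [ha, hA, Real.exp_le_exp]
    have : α / n ≤ α := div_le_self hα.le (by exact_mod_cast hn1)
    linarith
  -- a (1 - 2 a g + a^2) ≥ 0
  have key2 : 0 ≤ 1 - 2 * (a * Real.exp (ℓ / n)) + a ^ 2 := by
    have h1 : a - 2 * (a * (a * Real.exp (ℓ / n))) + a ^ 3 =
        a * (1 - 2 * (a * Real.exp (ℓ / n)) + a ^ 2) := by ring
    rw [h1] at key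
    by_contra hcon
    push Not at hcon
    have := mul_neg_of_pos_of_neg ha0 hcon
    linarith
  have key3 : 2 * A * (ℓ / n) ≤ (α / n) ^ 2 := by
    have h1 : 2 * A * (ℓ / n) ≤ 2 * a * (ℓ / n) := by
      gcongr
    have h2 : 2 * a * (ℓ / n) ≤ 2 * a * (Real.exp (ℓ / n) - 1) := by
      have : ℓ / n ≤ Real.exp (ℓ / n) - 1 := by linarith
      gcongr
    have h3 : 2 * a * (Real.exp (ℓ / n) - 1) ≤ (1 - a) ^ 2 := by nlinarith
    have h4 : (1 - a) ^ 2 ≤ (α / n) ^ 2 := by
      have : 0 ≤ 1 - a := by linarith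
      gcongr
    linarith
  have key4 : 2 * A * ℓ * n ≤ α ^ 2 := by
    have h1 : 2 * A * (ℓ / n) * (n ^ 2) ≤ (α / n) ^ 2 * n ^ 2 := by gcongr
    have h2 : 2 * A * (ℓ / n) * (n ^ 2) = 2 * A * ℓ * n := by field_simp
    have h3 : (α / n) ^ 2 * n ^ 2 = α ^ 2 := by field_simp
    linarith
  rw [div_lt_iff₀ (by positivity)] at hn
  linarith

lemma InfDiv.scale {p : ℝ≥0 → ℝ} (h : InfDiv p) (c : ℝ≥0) : InfDiv (fun t => p (c * t)) := by
  intro n hn
  obtain ⟨q, hq, hqn⟩ := h n hn
  exact ⟨fun t => q (c * t), hq.scale c, fun t => hqn _⟩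

/-- For all `lam, tau > 0` the truncated exponential is a standard p-function which is not in
the class `I₀`. -/
theorem main_aux (lam tau : ℝ≥0) (hlam : 0 < lam) (htau : 0 < tau) :
    IsStd (truncExp lam tau) ∧ ¬ MemI0 (truncExp lam tau) := by
  have hα : (0 : ℝ) < lam * tau / 2 := by positivity
  have hα2 : (0 : ℝ) < lam * tau := by positivity
  constructor
  · obtain ⟨ε, hε, hstd⟩ := pert_isStd hα2
    have h0 : KHyp ε (fun _ => 0) := ⟨fun _ _ => rfl, fun _ _ => rfl, fun s t => by
      simp only [sub_self, abs_zero]; positivity, fun t h _ => by simp; positivity⟩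
    have h1 := (hstd _ h0).scale (1 / tau)
    have h2 : truncExp lam tau = fun t => pert (lam * tau) (fun _ => 0) (1 / tau * t) := by
      funext t
      unfold truncExp pert
      rw [add_zero, mul_one]
      congr 1
      push_cast
      have htau' : (0 : ℝ) < tau := htau
      rcases le_total (tau : ℝ) t with h | h
      · rw [min_eq_left h, min_eq_right]
        · ring
        · rw [one_div, inv_mul_eq_div, one_le_div htau']; exact h
      · rw [min_eq_right h, min_eq_left]
        · field_simp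
        · rw [one_div, inv_mul_eq_div, div_le_one htau']; exact h
    rw [h2]
    exact h1
  · rintro ⟨-, hall⟩
    obtain ⟨ε, hε, hstd⟩ := pert_isStd hα
    obtain ⟨K, hK1, hK2, hK3, hK4⟩ := exists_pair hε
    have hq := (hstd _ hK1).scale (1 / tau)
    have hr := (hstd _ hK2).scale (1 / tau)
    have hfac : IsFactor (fun t => pert (lam * tau / 2) K (1 / tau * t)) (truncExp lam tau) := by
      refine ⟨hq, _, hr, fun t => ?_⟩
      unfold truncExp pert
      push_cast
      have htau' : (0 : ℝ) < tau := htau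
      have h3 : (1 + K (1 / tau * t)) ≠ 0 := by
        have := hK3 (1 / tau * t)
        linarith
      have h4 : Real.exp (-((lam : ℝ) * min (tau : ℝ) t)) =
          Real.exp (-(lam * tau / 2 * min (1 / (tau : ℝ) * t) 1)) *
          Real.exp (-(lam * tau / 2 * min (1 / (tau : ℝ) * t) 1)) := by
        rw [← Real.exp_add]
        congr 1
        rcases le_total (tau : ℝ) t with h | h
        · rw [min_eq_left h, min_eq_right]
          · ring
          · rw [one_div, inv_mul_eq_div, one_le_div htau']; exact h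
        · rw [min_eq_right h, min_eq_left]
          · field_simp
            ring
          · rw [one_div, inv_mul_eq_div, div_le_one htau']; exact h
      have h5 : (1 + K (1 / tau * t)) * (1 + (1 / (1 + K (1 / tau * t)) - 1)) = 1 := by
        rw [add_sub_cancel, mul_one_div_cancel h3]
      rw [h4]
      linear_combination (-(Real.exp (-(lam * tau / 2 * min (1 / (tau : ℝ) * t) 1)) *
          Real.exp (-(lam * tau / 2 * min (1 / (tau : ℝ) * t) 1)))) * h5
    have hdiv := (hall _ hfac).scale tau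
    have h5 : (fun t => pert (lam * tau / 2) K (1 / tau * (tau * t))) =
        pert (lam * tau / 2) K := by
      funext t
      congr 1
      rw [← mul_assoc, one_div_mul_cancel htau.ne', one_mul]
    rw [h5] at hdiv
    exact not_infDiv hα hK1 hK4 hdiv

/-- For all `lam, tau > 0` the truncated exponential `exp (- lam * min tau t)` is a standard
p-function which does not belong to the class `I₀`. -/
theorem result : ∀ lam tau : ℝ≥0, 0 < lam → 0 < tau →
    IsStd (truncExp lam tau) ∧ ¬ MemI0 (truncExp lam tau) :=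
  fun lam tau hlam htau => main_aux lam tau hlam htau

end Pool.Agent.Results.MP_0f714a_pr.NotInI0
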